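import Pool.Agent.TH194.LP.Pull

/-! The Kodaira dimension is at most the numerical dimension. -/

set_option autoImplicit false
set_option linter.overlappingInstances false
set_option linter.unusedSectionVars false

universe u v

open FF IntermediateField Pool.Agent.W619.PQ Pool.Agent.W619.PL Pool.Agent.W619.TW

namespace Pool.Agent.TH194.LP

section

variable {k : Type v} {K : Type u} [Field k] [Field K] [Algebra k K] {n : ℕ}
  {Bd : Place k K → Prop} {δ : Place k K → ℝ}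

theorem indep_le {N N' : ℕ} (h : N' ≤ N) {P : ((Fin n → Derivation k K K) → K) → Prop}
    (hN : HasIndep k K n N P) : HasIndep k K n N' P := by
  obtain ⟨ω, h1, h2⟩ := hN
  exact ⟨fun l => ω (Fin.castLE h l), h1.comp _ (Fin.castLE_injective h), fun l => h2 _⟩

theorem kod_mono {h h' : ℕ} (hh : h' ≤ h) (hk : LPKodGe k K n Bd δ h) :
    LPKodGe k K n Bd δ h' := by
  obtain ⟨m, hm, hk⟩ := hk
  exact ⟨m, hm, fun j hj => indep_le (Nat.pow_le_pow_right hj hh) (hk j hj)⟩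

theorem num_mono {h h' : ℕ} (hh : h ≤ h') (hk : LPNumLe k K n Bd δ h) :
    LPNumLe k K n Bd δ h' := by
  intro S
  obtain ⟨C, hC⟩ := hk S
  exact ⟨C, fun m N hm hI => (hC m N hm hI).trans
    (Nat.mul_le_mul_left _ (Nat.pow_le_pow_right hm hh))⟩

theorem kod_num {h a : ℕ} (hk : LPKodGe k K n Bd δ h) (ha : LPNumLe k K n Bd δ a) : h ≤ a := by
  by_contra hcon
  push Not at hcon
  obtain ⟨m, hm, hk⟩ := hk
  obtain ⟨C, hC⟩ := ha {1}
  have key : ∀ j : ℕ, 1 ≤ j → j ^ h ≤ C * (j * m) ^ a := by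
    intro j hj
    refine hC (j * m) (j ^ h) (Nat.mul_pos hj hm) ?_
    obtain ⟨ω, h1, h2⟩ := hk j hj
    have loc : ∀ (v : Place k K) (f : K), (f = 0 ∨ ∃ s ∈ ({1} : Finset K), s ≠ 0 ∧
        ((0 : ℕ) : ℝ) * v.ord s - (j * m : ℕ) * δ v ≤ v.ord f) →
        (f = 0 ∨ ∃ s ∈ ({1} : Finset K), s ≠ 0 ∧
        ((1 : ℕ) : ℝ) * v.ord s - (j * m : ℕ) * δ v ≤ v.ord f) := by
      rintro v f (h3 | ⟨s, hs, hs0, h3⟩)
      · exact Or.inl h3
      · right
        refine ⟨1, by simp, one_ne_zero, ?_⟩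
        rw [v.ord_one]
        simp only [Nat.cast_zero, zero_mul, Int.cast_zero, mul_zero] at h3 ⊢
        exact h3
    exact ⟨ω, h1, fun l => ⟨(h2 l).1, fun v hv hb D hD => loc v _ ((h2 l).2.1 v hv hb D hD),
      fun v hv hb D hD => loc v _ ((h2 l).2.2 v hv hb D hD)⟩⟩
  have h1 := key (C * m ^ a + 1) (by omega)
  have h2 : (C * m ^ a + 1) ^ (a + 1) ≤ (C * m ^ a + 1) ^ h :=
    Nat.pow_le_pow_right (by omega) hcon
  have h3 : C * ((C * m ^ a + 1) * m) ^ a = C * m ^ a * (C * m ^ a + 1) ^ a := by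
    rw [mul_pow]; ring
  rw [h3] at h1
  have h4 : 0 < (C * m ^ a + 1) ^ a := by positivity
  have h5 : (C * m ^ a + 1) ^ (a + 1) = C * m ^ a * (C * m ^ a + 1) ^ a + (C * m ^ a + 1) ^ a := by
    ring
  omega

/-- If `κ ≥ a` and `ν ≤ a` then `κ = ν = a`. -/
theorem exact_of {a : ℕ} (h1 : LPKodGe k K n Bd δ a) (h2 : LPNumLe k K n Bd δ a) :
    (∀ h, LPKodGe k K n Bd δ h ↔ h ≤ a) ∧ ∀ h, LPNumLe k K n Bd δ h ↔ a ≤ h :=
  ⟨fun _ => ⟨fun h3 => kod_num h3 h2, fun h3 => kod_mono h3 h1⟩,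
    fun _ => ⟨fun h3 => kod_num h1 h3, fun h3 => num_mono h3 h2⟩⟩

end

end Pool.Agent.TH194.LP
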