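import Pool.Agent.TH194.LP.Pull
import Pool.Agent.W340.PG.MULP

/-! If `Δ` is at most the divisor of a logarithmic pluricanonical form, then the upper bound for the
numerical dimension of `K + D` implies the same bound for `K + D + Δ`. -/

set_option autoImplicit false
set_option linter.overlappingInstances false
set_option linter.unusedSectionVars false

universe u v

open FF IntermediateField Pool.Agent.W619.PQ Pool.Agent.W619.PL Pool.Agent.W619.TW
  Pool.Agent.W603.LV Pool.Agent.W619.Y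

namespace Pool.Agent.TH194.LP

theorem mul_log (k : Type v) (L : Type u) [Field k] [CharZero k] [Field L] [Algebra k L]
    (n m1 : ℕ) (η : (Fin n → Derivation k L L) → L) (T : Finset L) (Bd : Place k L → Prop)
    (δ : Place k L → ℝ) (hn : Algebra.trdeg k L = n) (hm1 : 1 ≤ m1)
    (hη : IsPluriForm k L n m1 η) (hne : ∃ D, η D ≠ 0)
    (hδ : ∀ w : Place k L, IsDivisorial w n → ∃ t ∈ T, t ≠ 0 ∧ δ w ≤ -(w.ord t : ℝ))
    (hreg : ∀ t ∈ T, ∀ w : Place k L, IsDivisorial w n → ¬ Bd w →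
      RegularAt w n (fun D => t * η D))
    (hlog : ∀ t ∈ T, ∀ w : Place k L, IsDivisorial w n → Bd w →
      LogRegularAt w n (fun D => t * η D)) (a : ℕ) (hnum : NumLe k L n Bd a) :
    LPNumLe k L n Bd δ a := by
  intro S
  obtain ⟨C, hC⟩ := hnum S
  refine ⟨C * (1 + m1) ^ a, fun m N hm hind => ?_⟩
  obtain ⟨ω, hω, hsec⟩ := hind
  have loc : ∀ (l : Fin N) (w : Place k L), IsDivisorial w n → ∀ D : Fin n → Derivation k L L,
      (∀ t ∈ T, w.Reg (t * η D)) →
      (ω l D = 0 ∨ ∃ s ∈ S, s ≠ 0 ∧ ((1 : ℕ) : ℝ) * w.ord s - m * δ w ≤ w.ord (ω l D)) →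
      Dom w S 1 (ω l D * (η D) ^ m) := by
    intro l w hw D hr0 hs0
    by_cases h0 : ω l D * (η D) ^ m = 0
    · exact Or.inl h0
    right
    have hωD : ω l D ≠ 0 := left_ne_zero_of_mul h0
    have hpow : (η D) ^ m ≠ 0 := right_ne_zero_of_mul h0
    have hηD : η D ≠ 0 := fun h => hpow (by rw [h, zero_pow (by omega)])
    obtain ⟨s, hs, hs0, hle⟩ := hs0.resolve_left hωD
    obtain ⟨t, ht, ht0, hδt⟩ := hδ w hw
    have hr := hr0 t ht
    have hr' : 0 ≤ w.ord (t * η D) := hr.resolve_left (mul_ne_zero ht0 hηD)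
    rw [w.ord_mul ht0 hηD] at hr'
    refine ⟨s, hs, hs0, ?_⟩
    rw [w.ord_mul hωD hpow, w.ord_pow]
    have hrq : (0 : ℝ) ≤ (w.ord t : ℝ) + (w.ord (η D) : ℝ) := by exact_mod_cast hr'
    have h1 : (m : ℝ) * δ w ≤ (m : ℝ) * (w.ord (η D) : ℝ) := by
      apply mul_le_mul_of_nonneg_left _ (by positivity)
      linarith
    have h2 : ((1 : ℕ) : ℝ) * (w.ord s : ℝ) ≤
        (w.ord (ω l D) : ℝ) + (m : ℝ) * (w.ord (η D) : ℝ) := by linarith
    exact_mod_cast h2
  have key : N ≤ C * (m + m * m1) ^ a := by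
    refine hC (m + m * m1) N (by omega) ⟨fun l => fun D => ω l D * (η D) ^ m,
      Pool.Agent.W340.PG.MULP.indep_mul hn hη hne ω hω (fun l => (hsec l).1),
      fun l => ⟨?_, ?_, ?_⟩⟩
    · intro A D
      show ω l _ * (η _) ^ m = A.det ^ (m + m * m1) * (ω l D * (η D) ^ m)
      rw [(hsec l).1 A D, hη A D, mul_pow, ← pow_mul, pow_add, mul_comm m m1]
      ring
    · intro w hw hb D hD
      exact loc l w hw D (fun t ht => hreg t ht w hw hb D hD) ((hsec l).2.1 w hw hb D hD)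
    · intro w hw hb D hD
      exact loc l w hw D (fun t ht => hlog t ht w hw hb D hD) ((hsec l).2.2 w hw hb D hD)
  calc N ≤ C * (m + m * m1) ^ a := key
    _ = C * (1 + m1) ^ a * m ^ a := by
      have : m + m * m1 = (1 + m1) * m := by ring
      rw [this, mul_pow, mul_assoc]

end Pool.Agent.TH194.LP
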