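import Pool.Agent.TH194.LP.Pull
import Pool.Agent.W619.Y.PForm
import Pool.Agent.W511.PG.FIBJB
import Pool.Agent.W704.PG.VAN
import Pool.Agent.W619.Y.Den
import Pool.Agent.W619.Y.LUp

/-! Logarithmic pluricanonical forms on `Y × C 1 × ... × C n` with prescribed zeros. -/

set_option autoImplicit false
set_option linter.overlappingInstances false
set_option linter.unusedSectionVars false

universe u v

open Polynomial FF IntermediateField Pool.Agent.W619.PQ Pool.Agent.W619.PL Pool.Agent.W619.TW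
  Pool.Agent.W619.X Pool.Agent.W619.Y Pool.Agent.W603.LV

namespace Pool.Agent.TH194.LP

section

variable {k : Type v} {L : Type u} [Field k] [CharZero k] [IsAlgClosed k] [Field L] [Algebra k L]

/-- The `m`-form `b (dx) ^ m` on a curve is regular at `w` with respect to the derivations in
`𝒟`. -/
def CG (m : ℕ) (w : Place k L) (x b : L) (𝒟 : Derivation k L L → Prop) : Prop :=
  ∃ (ρ : L) (g : Derivation k L L → L), (∀ D, D x = ρ * g D) ∧ Ge w 0 (b * ρ ^ m) ∧
    ∀ D, 𝒟 D → Ge w 0 (g D)

omit [CharZero k] [IsAlgClosed k] in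
/-- Products of forms. -/
theorem prod_cg (d n m : ℕ)
    (w : Place k L) (y : Fin d → L) (a : L) (x b : Fin n → L) (𝒟 : Derivation k L L → Prop)
    (h𝒟 : ∀ D, 𝒟 D → Pres w D)
    (hy : YGood d m w y a) (hx : ∀ i, CG m w (x i) (b i) 𝒟)
    (D : Fin (d + n) → Derivation k L L) (hD : ∀ j, 𝒟 (D j)) :
    Ge w 0 (a * (∏ i, b i) *
        (Matrix.of fun i j => D j ((Fin.append y x : Fin (d + n) → L) i)).det ^ m) := by
  obtain ⟨Z, z, hz, hyz, hZ⟩ := hy
  choose ρ g hxg hρ hg using hx
  set e : Fin d ⊕ Fin n ≃ Fin (d + n) := finSumFinEquiv with he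
  let N : Matrix (Fin d ⊕ Fin n) (Fin d ⊕ Fin n) L :=
    Matrix.of fun i j => Sum.elim (fun i => D (e j) (z i)) (fun i => g i (D (e j))) i
  have hM : ((Matrix.of fun i j => D j ((Fin.append y x : Fin (d + n) → L) i)).submatrix e e) =
      Matrix.fromBlocks Z 0 0 (Matrix.diagonal ρ) * N := by
    ext i j
    rw [Matrix.mul_apply, Fintype.sum_sum_type]
    rcases i with i | i
    · simp only [Matrix.submatrix_apply, Matrix.of_apply, Matrix.fromBlocks_apply₁₁,
        Matrix.fromBlocks_apply₁₂, Matrix.zero_apply, zero_mul, Finset.sum_const_zero, add_zero, N,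
        he, finSumFinEquiv_apply_left, Fin.append_left, Sum.elim_inl]
      exact hyz _ _
    · simp only [Matrix.submatrix_apply, Matrix.of_apply, Matrix.fromBlocks_apply₂₁,
        Matrix.fromBlocks_apply₂₂, Matrix.zero_apply, zero_mul, Finset.sum_const_zero, zero_add, N,
        he, finSumFinEquiv_apply_right, Fin.append_right, Sum.elim_inr, Matrix.diagonal_apply]
      rw [Finset.sum_eq_single i]
      · rw [if_pos rfl]
        exact hxg _ _
      · intro c _ hc
        rw [if_neg (Ne.symm hc), zero_mul]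
      · intro h
        exact absurd (Finset.mem_univ i) h
  have hdet : (Matrix.of fun i j => D j ((Fin.append y x : Fin (d + n) → L) i)).det =
      Z.det * (∏ i, ρ i) * N.det := by
    rw [← Matrix.det_submatrix_equiv_self e, hM, Matrix.det_mul, Matrix.det_fromBlocks_zero₂₁,
      Matrix.det_diagonal]
  have hN : Ge w 0 N.det := by
    apply ge_det
    intro i j
    rcases i with i | i
    · exact h𝒟 _ (hD _) _ (hz i)
    · exact hg i _ (hD _)
  have hB : Ge w 0 (∏ i, (b i * (ρ i) ^ m)) := by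
    have h := Ge.prod (P := w) Finset.univ (fun i => b i * (ρ i) ^ m) (fun _ => (0 : ℤ)) (by
      intro i _
      exact hρ i)
    simpa using h
  have h1 : a * (∏ i, b i) * (Z.det * (∏ i, ρ i) * N.det) ^ m =
      (a * Z.det ^ m) * (∏ i, (b i * (ρ i) ^ m)) * N.det ^ m := by
    rw [Finset.prod_mul_distrib, Finset.prod_pow, mul_pow, mul_pow]
    ring
  rw [hdet, h1]
  have h2 := (hZ.mul hB).mul (hN.pow m)
  simpa using h2

/-- The condition on the coefficient `f` of the form `f (dx) ^ m` on the curve `F`. -/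
theorem curve_cg (F : IntermediateField k L) [hF : IsFF k F] {x : F} (hx : Transcendental k x)
    {E : Derivation k F F} (hE : E x = 1) (m : ℕ) (f : F) (w : Place k L)
    (h : ∀ (q : Place k F) (e : ℕ), Over w q e → f = 0 ∨ (m : ℤ) * vo q E ≤ q.ord f) :
    CG m w (x : L) (f : L) (Pres w) := by
  have hE0 : E ≠ 0 := by
    rintro rfl
    exact zero_ne_one hE
  by_cases htriv : ∃ z : F, w.ord (algebraMap F L z) ≠ 0
  · obtain ⟨e, q, hq⟩ := exists_over (K := F) w htriv
    obtain ⟨t, ht0, ht⟩ := q.surj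
    have hEt := der_pi_ne_zero hE0 q ht
    have hEt' : ((E t : F) : L) ≠ 0 := fun h => hEt (Subtype.ext h)
    obtain ⟨r, hr1, hr2⟩ := ratio' (K := L) hx t
    have h1 := hr1 E
    rw [hE, mul_one] at h1
    refine ⟨((E t : F) : L)⁻¹, fun D => D (t : L), fun D => ?_, ?_, fun D hD => ?_⟩
    · have h2 := hr2 D
      change D (t : L) = (r : L) * D (x : L) at h2
      rw [← h1] at h2
      change D (x : L) = ((E t : F) : L)⁻¹ * D (t : L)
      rw [h2, ← mul_assoc, inv_mul_cancel₀ hEt', one_mul]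
    · rcases h q e hq with h3 | h3
      · left; rw [h3]; simp
      · by_cases hf0 : f = 0
        · left; rw [hf0]; simp
        right
        have hfL : (f : L) ≠ 0 := fun h => hf0 (Subtype.ext h)
        rw [w.ord_mul hfL (pow_ne_zero _ (inv_ne_zero hEt')), w.ord_pow, w.ord_inv]
        have h4 : w.ord (f : L) = e * q.ord f := hq.2 f
        have h5 : w.ord ((E t : F) : L) = e * q.ord (E t) := hq.2 (E t)
        rw [h4, h5, vo_eq q ht hE0]
        have h6 : (e : ℤ) * (m * vo q E) ≤ e * q.ord f :=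
          mul_le_mul_of_nonneg_left h3 (by positivity)
        have h7 : (m : ℤ) * -(e * vo q E) = -(e * (m * vo q E)) := by ring
        rw [h7]
        linarith
    · refine hD (t : L) (Or.inr ?_)
      have h4 : w.ord (t : L) = e * q.ord t := hq.2 t
      rw [h4, ht]
      positivity
  · push Not at htriv
    refine ⟨1, fun D => D (x : L), fun D => by rw [one_mul], ?_, fun D hD => ?_⟩
    · rw [one_pow, mul_one]
      exact Or.inr (htriv f).ge
    · exact hD (x : L) (Or.inr (htriv x).ge)

/-- As `curve_cg`, with logarithmic poles and for logarithmic vector fields. -/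
theorem curve_cg_log (F : IntermediateField k L) [hF : IsFF k F] {x : F}
    (hx : Transcendental k x)
    {E : Derivation k F F} (hE : E x = 1) (m : ℕ) (f : F) (w : Place k L)
    (h : ∀ q : Place k F, f = 0 ∨ (m : ℤ) * (vo q E - 1) ≤ q.ord f) :
    CG m w (x : L) (f : L) (fun D => ∀ z, w.Reg (D z / z)) := by
  have hE0 : E ≠ 0 := by
    rintro rfl
    exact zero_ne_one hE
  by_cases htriv : ∃ z : F, w.ord (algebraMap F L z) ≠ 0
  · obtain ⟨e, q, hq⟩ := exists_over (K := F) w htriv
    obtain ⟨t, ht0, ht⟩ := q.surj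
    have hEt := der_pi_ne_zero hE0 q ht
    have hEt' : ((E t : F) : L) ≠ 0 := fun h => hEt (Subtype.ext h)
    have ht' : ((t : F) : L) ≠ 0 := fun h => ht0 (Subtype.ext h)
    obtain ⟨r, hr1, hr2⟩ := ratio' (K := L) hx t
    have h1 := hr1 E
    rw [hE, mul_one] at h1
    refine ⟨(t : L) * ((E t : F) : L)⁻¹, fun D => D (t : L) / (t : L), fun D => ?_, ?_,
      fun D hD => hD (t : L)⟩
    · have h2 := hr2 D
      change D (t : L) = (r : L) * D (x : L) at h2
      rw [← h1] at h2
      change D (x : L) = (t : L) * ((E t : F) : L)⁻¹ * (D (t : L) / (t : L))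
      rw [h2]
      field_simp
    · rcases h q with h3 | h3
      · left; rw [h3]; simp
      · by_cases hf0 : f = 0
        · left; rw [hf0]; simp
        right
        have hfL : (f : L) ≠ 0 := fun h => hf0 (Subtype.ext h)
        have h0 : (t : L) * ((E t : F) : L)⁻¹ ≠ 0 := mul_ne_zero ht' (inv_ne_zero hEt')
        rw [w.ord_mul hfL (pow_ne_zero _ h0), w.ord_pow, w.ord_mul ht' (inv_ne_zero hEt'),
          w.ord_inv]
        have h4 : w.ord (f : L) = e * q.ord f := hq.2 f
        have h5 : w.ord ((E t : F) : L) = e * q.ord (E t) := hq.2 (E t)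
        have h8 : w.ord (t : L) = e * q.ord t := hq.2 t
        rw [h4, h5, h8, ht, vo_eq q ht hE0]
        have h6 : (e : ℤ) * (m * (vo q E - 1)) ≤ e * q.ord f :=
          mul_le_mul_of_nonneg_left h3 (by positivity)
        have h7 : (m : ℤ) * (e * 1 + -(e * vo q E)) = -(e * (m * (vo q E - 1))) := by ring
        rw [h7]
        linarith
  · push Not at htriv
    refine ⟨1, fun D => D (x : L), fun D => by rw [one_mul], ?_, fun D hD => ?_⟩
    · rw [one_pow, mul_one]
      exact Or.inr (htriv f).ge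
    · exact reg_of_log w D hD (x : L) (Or.inr (htriv x).ge)

/-- Coefficients of logarithmic forms on a curve, with prescribed zeros. -/
theorem exists_coef {K : Type u} [Field K] [Algebra k K] [hK : IsFF k K] (BF : Place k K → Prop)
    (hfin : {p | BF p}.Finite) (hdeg : 0 < canDeg k K + {p | BF p}.ncard)
    {E : Derivation k K K} (hE : E ≠ 0) (H : Finset K) :
    ∃ (m : ℕ) (f : K), 1 ≤ m ∧ f ≠ 0 ∧ ∀ h ∈ H, ∀ q : Place k K,
      h * f = 0 ∨ ((m : ℤ) * (vo q E - 1) ≤ q.ord (h * f) ∧
        (¬ BF q → (m : ℤ) * vo q E ≤ q.ord (h * f))) := by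
  classical
  set Δ : Place k K →₀ ℤ := ∑ h ∈ H, polar (k := k) h with hΔ
  have hΔle : ∀ h ∈ H, ∀ q : Place k K, - q.ord h ≤ Δ q := by
    intro h hh q
    rw [hΔ, Finsupp.finsetSum_apply]
    have h1 : polar (k := k) h q ≤ ∑ h ∈ H, polar (k := k) h q :=
      Finset.single_le_sum (f := fun h => polar (k := k) h q)
        (fun h _ => by
          have := polar_nonneg (k := k) h q
          exact this) hh
    refine le_trans ?_ h1
    rw [polar_apply]
    exact le_max_left _ _
  let C : Place k K →₀ ℤ := Finsupp.ofSupportFinite (fun q => - vo q E)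
    ((vo_finite hE).subset fun q hq => by
      simpa using hq)
  have hC : ∀ q, C q = - vo q E := fun q => rfl
  have hCdeg : ddeg C = canDeg k K := by
    unfold ddeg
    rw [Finsupp.sum_of_support_subset (s := (vo_finite hE).toFinset) _ (fun q hq => by
      rw [Finsupp.mem_support_iff, hC] at hq
      rw [Set.Finite.mem_toFinset]
      intro h
      exact hq (by rw [h, neg_zero])) _ (by intros; simp)]
    have h1 : ∀ q ∈ (vo_finite hE).toFinset, C q * (q.deg : ℤ) = - vo q E := by
      intro q _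
      rw [deg_one, hC]; simp
    rw [Finset.sum_congr rfl h1, Finset.sum_neg_distrib,
      canDeg_finset hE _ fun q hq => (vo_finite hE).mem_toFinset.2 hq, neg_neg]
  obtain ⟨B, hB, hBdeg⟩ := Pool.Agent.W511.PG.FIBJB.exists_B BF hfin
  obtain ⟨γ, N, hrr, -⟩ := riemann (k := k) (K := K)
  set m : ℕ := (γ + ddeg Δ + 1).toNat + 1 with hm
  have hm1 : γ + ddeg Δ + 1 ≤ m := by
    have := Int.self_le_toNat (γ + ddeg Δ + 1)
    rw [hm]; push_cast; omega
  have h2 := hrr (m • (C + B) - Δ)
  rw [ddeg_sub, ddeg_nsmul, ddeg_add, hCdeg, hBdeg] at h2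
  have h3 : (m : ℤ) * 1 ≤ m * (canDeg k K + {p | BF p}.ncard) :=
    mul_le_mul_of_nonneg_left (by omega) (by positivity)
  obtain ⟨f, hf, hf0⟩ := exists_ne_zero_of_ell_pos (D := m • (C + B) - Δ) (by linarith)
  have hf := (mem_LL.1 hf).resolve_left hf0
  have hford : ∀ q : Place k K, m * vo q E - m * B q + Δ q ≤ q.ord f := by
    intro q
    have h4 := hf q
    rw [Finsupp.sub_apply, Finsupp.smul_apply, nsmul_eq_mul, Finsupp.add_apply, hC] at h4
    linarith
  refine ⟨m, f, by omega, hf0, fun h hh q => ?_⟩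
  by_cases hh0 : h = 0
  · left; rw [hh0, zero_mul]
  right
  rw [q.ord_mul hh0 hf0]
  have h9 := hford q
  have h10 := hΔle h hh q
  by_cases hb : BF q
  · rw [(hB q).1 hb] at h9
    exact ⟨by linarith, fun h => absurd hb h⟩
  · rw [(hB q).2 hb] at h9
    have hmn : (0 : ℤ) ≤ m := by positivity
    exact ⟨by linarith, fun _ => by linarith⟩

/-- The coefficient of the logarithmic form on a curve of degree zero. -/
theorem exists_coef_flat (F : IntermediateField k L) [hF : IsFF k F] (H : Subgroup (L ≃ₐ[k] L))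
    (B : Set (Place k ↥(F ⊓ fixedField H)))
    (hflat : IsFlat (inf_le_left : F ⊓ fixedField H ≤ F) B)
    {E : Derivation k F F} (hE : E ≠ 0) :
    ∃ f : F, f ≠ 0 ∧ ∀ q : Place k F,
      (((1 : ℕ) : ℤ) * (vo q E - 1) ≤ q.ord f ∧
        (¬ BFof F H B q → ((1 : ℕ) : ℤ) * vo q E ≤ q.ord f)) := by
  classical
  obtain ⟨D, hD⟩ := hflat
  obtain ⟨g, hg⟩ := der_smul (D' := D) hE
  have hg0 : g ≠ 0 := by
    rintro rfl
    obtain ⟨w, -⟩ := exists_place (k := k) (K := F)
    obtain ⟨t, -, ht⟩ := w.surj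
    have h1 := (hD w t ht).1
    rw [hg, zero_smul] at h1
    exact h1 rfl
  refine ⟨g⁻¹, inv_ne_zero hg0, fun q => ?_⟩
  obtain ⟨t, -, ht⟩ := q.surj
  obtain ⟨h1, h2⟩ := hD q t ht
  have hEt := der_pi_ne_zero hE q ht
  rw [hg, Derivation.coe_smul, Pi.smul_apply, smul_eq_mul, q.ord_mul hg0 hEt,
    vo_eq q ht hE] at h2
  rw [q.ord_inv, Nat.cast_one, one_mul, one_mul]
  by_cases hb : ∃ p ∈ B, ∃ e, LiesOver (inf_le_left : F ⊓ fixedField H ≤ F) q p e
  · rw [if_pos hb] at h2
    exact ⟨by omega, fun h => absurd hb h⟩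
  · rw [if_neg hb] at h2
    exact ⟨by omega, fun _ => by omega⟩

/-- Forms on the product with prescribed zeros. -/
theorem exists_vanL
    (hDEN : S_DEN.{u, v}) (d n : ℕ) (hn : Algebra.trdeg k L = (d + n : ℕ))
    (M : IntermediateField k L) [Algebra.EssFiniteType k M] (hM : Algebra.trdeg k M = d)
    (F : Fin n → IntermediateField k L) [hF : ∀ i, IsFF k (F i)]
    (halg : Algebra.IsAlgebraic ↥(M ⊔ ⨆ i, F i) L)
    (hY : ¬ KodairaNeg k M d) (BF : ∀ i, Place k (F i) → Prop)
    (P : Set (Fin n)) (T : Finset L) (hT : ∀ t ∈ T, t ∈ ⨆ i : P, F i)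
    (hpos : ∀ i ∈ P, ∀ E : Derivation k (F i) (F i), E ≠ 0 → ∀ H : Finset (F i),
      ∃ (m : ℕ) (f : F i), 1 ≤ m ∧ f ≠ 0 ∧ ∀ h ∈ H, ∀ q : Place k (F i),
        h * f = 0 ∨ ((m : ℤ) * (vo q E - 1) ≤ q.ord (h * f) ∧
          (¬ BF i q → (m : ℤ) * vo q E ≤ q.ord (h * f))))
    (hflat : ∀ i ∉ P, ∀ E : Derivation k (F i) (F i), E ≠ 0 →
      ∃ f : F i, f ≠ 0 ∧ ∀ q : Place k (F i),
        (((1 : ℕ) : ℤ) * (vo q E - 1) ≤ q.ord f ∧
          (¬ BF i q → ((1 : ℕ) : ℤ) * vo q E ≤ q.ord f))) :
    ∃ (m : ℕ) (η : (Fin (d + n) → Derivation k L L) → L), 1 ≤ m ∧ IsPluriForm k L (d + n) m η ∧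
      (∃ D, η D ≠ 0) ∧ ∀ t ∈ (insert 1 T : Set L), ∀ w : Place k L, IsDivisorial w (d + n) →
        (¬ BdMany M F (fun _ => False) BF w → RegularAt w (d + n) (fun D => t * η D)) ∧
        (BdMany M F (fun _ => False) BF w → LogRegularAt w (d + n) (fun D => t * η D)) := by
  classical
  obtain ⟨mY, ηY, y, E, hmY, hηY, hregY, hy, hE, hηY0⟩ := exists_form d M hM hY
  obtain ⟨g, H, hg0, hH1, hH2, hHT⟩ := hDEN k L n F P T hT
  have hx0 : ∀ i, ∃ x : F i, Transcendental k x := fun i => IsFF.exists_transcendental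
  choose x hx using hx0
  have hE0 : ∀ i, ∃ Ei : Derivation k (F i) (F i), Ei (x i) = 1 := fun i => by
    have hch : CharZero (F i) := charZero_of_alg (k := k)
    obtain ⟨Ei, h1⟩ := exists_dual (fun _ : Fin 1 => x i) (curve_basis (F i) (hx i)) 0
    exact ⟨Ei, by simpa using h1 0⟩
  choose Ec hEc using hE0
  have hEc0 : ∀ i, Ec i ≠ 0 := by
    intro i h0
    have := hEc i
    rw [h0] at this
    exact zero_ne_one this
  have hcurve : ∀ i, ∃ (m : ℕ) (f : F i), 1 ≤ m ∧ f ≠ 0 ∧ ∀ h ∈ H i, ∀ q : Place k (F i),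
        h * f = 0 ∨ ((m : ℤ) * (vo q (Ec i) - 1) ≤ q.ord (h * f) ∧
          (¬ BF i q → (m : ℤ) * vo q (Ec i) ≤ q.ord (h * f))) := by
    intro i
    by_cases hi : i ∈ P
    · exact hpos i hi (Ec i) (hEc0 i) (H i)
    · obtain ⟨f, h1, h2⟩ := hflat i hi (Ec i) (hEc0 i)
      refine ⟨1, f, le_rfl, h1, fun h hh q => ?_⟩
      have h4 : h = 1 := hH1 i hi h hh
      subst h4
      rw [one_mul]
      exact Or.inr (h2 q)
  choose mc b hmc hb0 hreg using hcurve
  -- the common weight
  have hprod : 1 ≤ ∏ i, mc i := Finset.one_le_prod' fun i _ => hmc i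
  let m : ℕ := (∏ i, mc i) * mY
  let r : Fin n → ℕ := fun i => (∏ j ∈ Finset.univ.erase i, mc j) * mY
  have hrm : ∀ i, r i * mc i = m := fun i => by
    have h1 : (∏ j ∈ Finset.univ.erase i, mc j) * mc i = ∏ i, mc i :=
      Finset.prod_erase_mul _ _ (Finset.mem_univ i)
    simp only [r, m]
    rw [← h1]
    ring
  have hr1 : ∀ i, 1 ≤ r i := fun i => by
    have h1 : 1 ≤ ∏ j ∈ Finset.univ.erase i, mc j := Finset.one_le_prod' fun j _ => hmc j
    simp only [r]
    exact Nat.one_le_iff_ne_zero.2 (by positivity)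
  let a : L := ((ηY E : M) : L) ^ (∏ i, mc i)
  have ha0 : a ≠ 0 := pow_ne_zero _ fun h0 => hηY0 (Subtype.ext h0)
  have hYg : ∀ w : Place k L, IsDivisorial w (d + n) → YGood d m w (fun l => (y l : L)) a := by
    intro w hw
    exact (pYLOC k L M d (d + n) mY hM hn (fun y hy => fin_over y hy) ηY hηY hregY y E hy hE w
      hw).pow (∏ i, mc i)
  -- the local conditions on the coefficients of the curves
  have hcoef : ∀ (h : ∀ i, F i), (∀ i, h i ∈ H i) → ∀ i (q : Place k (F i)),
      h i * (b i) ^ (r i) = 0 ∨ ((m : ℤ) * (vo q (Ec i) - 1) ≤ q.ord (h i * (b i) ^ (r i)) ∧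
        (¬ BF i q → (m : ℤ) * vo q (Ec i) ≤ q.ord (h i * (b i) ^ (r i)))) := by
    intro h hh i q
    by_cases h0 : h i = 0
    · left; rw [h0, zero_mul]
    right
    obtain ⟨s, hs⟩ : ∃ s, r i = s + 1 := ⟨r i - 1, by have := hr1 i; omega⟩
    have h1 := (hreg i (h i) (hh i) q).resolve_left (mul_ne_zero h0 (hb0 i))
    have h2 := (hreg i 1 (hH2 i) q).resolve_left (by rw [one_mul]; exact hb0 i)
    rw [one_mul] at h2
    have h3 : q.ord (h i * (b i) ^ (r i)) = q.ord (h i * b i) + s * q.ord (b i) := by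
      rw [hs, pow_succ, mul_comm ((b i) ^ s), ← mul_assoc,
        q.ord_mul (mul_ne_zero h0 (hb0 i)) (pow_ne_zero _ (hb0 i)), q.ord_pow]
    have h4 : (m : ℤ) = mc i + s * mc i := by
      rw [← hrm i, hs]; push_cast; ring
    rw [h3, h4]
    refine ⟨?_, fun hb => ?_⟩
    · have h5 : (s : ℤ) * (mc i * (vo q (Ec i) - 1)) ≤ s * q.ord (b i) :=
        mul_le_mul_of_nonneg_left h2.1 (by positivity)
      have h6 : ((mc i : ℤ) + s * mc i) * (vo q (Ec i) - 1) = mc i * (vo q (Ec i) - 1) +
        s * (mc i * (vo q (Ec i) - 1)) := by ring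
      rw [h6]
      exact add_le_add h1.1 h5
    · have h5 : (s : ℤ) * (mc i * vo q (Ec i)) ≤ s * q.ord (b i) :=
        mul_le_mul_of_nonneg_left (h2.2 hb) (by positivity)
      have h6 : ((mc i : ℤ) + s * mc i) * vo q (Ec i) = mc i * vo q (Ec i) +
        s * (mc i * vo q (Ec i)) := by ring
      rw [h6]
      exact add_le_add (h1.2 hb) h5
  let xx : Fin (d + n) → L := Fin.append (fun l => (y l : L)) (fun i => (x i : L))
  let c : L := g * a * ∏ i, ((b i : L) ^ (r i))
  let η : (Fin (d + n) → Derivation k L L) → L := fun D =>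
    c * (Matrix.of fun i j => D j (xx i)).det ^ m
  have hc0 : c ≠ 0 := by
    refine mul_ne_zero (mul_ne_zero hg0 ha0) (Finset.prod_ne_zero_iff.2 fun i _ =>
      pow_ne_zero _ fun h0 => hb0 i (Subtype.ext h0))
  have hbas := basis_append M F halg hn y hy x hx
  refine ⟨m, η, Nat.mul_pos hprod hmY, fun A D => ?_, ?_, ?_⟩
  · change c * (Matrix.of fun i j => (∑ l, A j l • D l) (xx i)).det ^ m =
      A.det ^ m * (c * (Matrix.of fun i j => D j (xx i)).det ^ m)
    have h1 : (Matrix.of fun i j => (∑ l, A j l • D l) (xx i)) =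
        (Matrix.of fun i j => D j (xx i)) * A.transpose := by
      ext i j
      rw [Matrix.mul_apply]
      have h2 : ∀ s : Finset (Fin (d + n)), (∑ l ∈ s, A j l • D l) (xx i) =
          ∑ l ∈ s, D l (xx i) * A j l := by
        intro s
        induction s using Finset.induction_on with
        | empty => simp
        | insert e s he ih =>
          rw [Finset.sum_insert he, Finset.sum_insert he, Derivation.add_apply, ih]
          congr 1
          rw [Derivation.smul_apply, smul_eq_mul, mul_comm]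
      exact h2 Finset.univ
    rw [h1, Matrix.det_mul, Matrix.det_transpose, mul_pow]
    ring
  · have hch : CharZero L := charZero_of_alg (k := k)
    choose EL hEL using fun j => exists_dual xx hbas j
    refine ⟨EL, ?_⟩
    have h1 : (Matrix.of fun i j => EL j (xx i)) = 1 := by
      ext i j
      rw [Matrix.of_apply, hEL j i, Matrix.one_apply]
    change c * (Matrix.of fun i j => EL j (xx i)).det ^ m ≠ 0
    rw [h1, Matrix.det_one, one_pow, mul_one]
    exact hc0
  · intro t ht w hw
    have main : ∀ (𝒟 : Derivation k L L → Prop), (∀ D, 𝒟 D → Pres w D) →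
        (∀ (h : ∀ i, F i), (∀ i, h i ∈ H i) → ∀ i,
          CG m w (x i : L) ((h i * (b i) ^ (r i) : F i) : L) 𝒟) →
        ∀ D : Fin (d + n) → Derivation k L L, (∀ j, 𝒟 (D j)) →
        Ge w 0 (t * η D) := by
      intro 𝒟 h𝒟 hcg D hD
      have key : ∀ s ∈ Submodule.span k
          {z : L | ∃ h : ∀ i, F i, (∀ i, h i ∈ H i) ∧ z = ∏ i, (h i : L)},
          Ge w 0 (s * (a * (∏ i, ((b i : L) ^ (r i))) *
            (Matrix.of fun i j => D j (xx i)).det ^ m)) := by
        intro s hs
        induction hs using Submodule.span_induction with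
        | mem z hz =>
          obtain ⟨h, hh, rfl⟩ := hz
          have h1 := prod_cg d n m w (fun l => (y l : L)) a (fun i => (x i : L))
            (fun i => ((h i * (b i) ^ (r i) : F i) : L)) 𝒟 h𝒟 (hYg w hw) (hcg h hh) D hD
          have h2 : (∏ i, (h i : L)) * (a * (∏ i, ((b i : L) ^ (r i))) *
              (Matrix.of fun i j => D j (xx i)).det ^ m) =
              a * (∏ i, ((h i * (b i) ^ (r i) : F i) : L)) *
              (Matrix.of fun i j => D j (xx i)).det ^ m := by
            have h3 : (∏ i, ((h i * (b i) ^ (r i) : F i) : L)) =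
                (∏ i, (h i : L)) * ∏ i, ((b i : L) ^ (r i)) := by
              rw [← Finset.prod_mul_distrib]
              rfl
            rw [h3]
            ring
          rw [h2]
          exact h1
        | zero => rw [zero_mul]; exact Ge.zero
        | add p q _ _ hp hq => rw [add_mul]; exact hp.add hq
        | smul e p _ hp =>
          rw [Algebra.smul_def, mul_assoc]
          have h1 := (Ge.const (P := w) e).mul hp
          simpa using h1
      have h4 := key (g * t) (hHT t ht)
      have h5 : t * η D =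
          g * t * (a * (∏ i, ((b i : L) ^ (r i))) * (Matrix.of fun i j => D j (xx i)).det ^ m) := by
        simp only [c, η]
        ring
      rw [h5]
      exact h4
    refine ⟨fun hb D hD => ?_, fun hb D hD => ?_⟩
    · refine main (Pres w) (fun _ h => h) (fun h hh i => ?_) D hD
      refine curve_cg (F i) (hx i) (hEc i) m _ w fun q e hq => ?_
      have hnb : ¬ BF i q := fun hbq => hb (Or.inr ⟨i, q, e, hq, hbq⟩)
      exact (hcoef h hh i q).imp id fun h1 => h1.2 hnb
    · refine main (fun D => ∀ z, w.Reg (D z / z)) (fun D h f hf => reg_of_log w D h f hf)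
        (fun h hh i => ?_) D hD
      refine curve_cg_log (F i) (hx i) (hEc i) m _ w fun q => ?_
      exact (hcoef h hh i q).imp id fun h1 => h1.1

end

end Pool.Agent.TH194.LP
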