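import Pool.Agent.TH194.LP.Neg
import Pool.Agent.TH194.LP.Mul
import Pool.Agent.TH194.LP.Van
import Pool.Agent.W619.Y.LMain
import Pool.Agent.W619.Y.PMain

/-! Log canonical pairs on quotients of `Y × C 1 × ... × C n`. -/

set_option autoImplicit false
set_option linter.overlappingInstances false
set_option linter.unusedSectionVars false

universe u v

open Polynomial FF IntermediateField Pool.Agent.W619.PQ Pool.Agent.W619.PL Pool.Agent.W619.TW
  Pool.Agent.W619.X Pool.Agent.W619.Y Pool.Agent.W603.LV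

namespace Pool.Agent.TH194.LP

/-- Effective divisors are pseudo-effective. -/
theorem lppsef_of_eff {k : Type v} {K : Type u} [Field k] [Field K] [Algebra k K] {n : ℕ}
    {Bd : Place k K → Prop} {δ : Place k K → ℝ} (h : LPEff k K n Bd δ) : LPPsef k K n Bd δ := by
  classical
  obtain ⟨m, hm, ω, hω, D0, hD0⟩ := h
  refine ⟨{1}, fun N => ⟨m, hm, fun D => (ω D) ^ N, ?_, D0, pow_ne_zero _ hD0⟩⟩
  have key : ∀ (v : Place k K) (D : Fin n → Derivation k K K),
      (ω D = 0 ∨ ∃ s ∈ ({1} : Finset K), s ≠ 0 ∧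
        ((0 : ℕ) : ℝ) * v.ord s - m * δ v ≤ v.ord (ω D)) →
      (ω D) ^ N = 0 ∨ ∃ s ∈ ({1} : Finset K), s ≠ 0 ∧
        ((m : ℕ) : ℝ) * v.ord s - (m * N : ℕ) * δ v ≤ v.ord ((ω D) ^ N) := by
    rintro v D hs
    by_cases h0 : ω D = 0
    · by_cases hN : N = 0
      · right
        subst hN
        refine ⟨1, by simp, one_ne_zero, ?_⟩
        rw [pow_zero, v.ord_one]
        simp
      · left; rw [h0, zero_pow hN]
    · right
      obtain ⟨s, hs, hs0, h1⟩ := hs.resolve_left h0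
      refine ⟨1, by simp, one_ne_zero, ?_⟩
      rw [v.ord_one, v.ord_pow]
      have h2 : -(m * δ v) ≤ (v.ord (ω D) : ℝ) := by
        rw [Nat.cast_zero, zero_mul] at h1
        linarith
      have h3 : (N : ℝ) * -(m * δ v) ≤ N * (v.ord (ω D) : ℝ) :=
        mul_le_mul_of_nonneg_left h2 (by positivity)
      push_cast
      linarith
  refine ⟨fun A D => ?_, fun v hv hb D hD => key v D (hω.2.1 v hv hb D hD),
    fun v hv hb D hD => key v D (hω.2.2 v hv hb D hD)⟩
  show (ω _) ^ N = _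
  rw [hω.1 A D, mul_pow, ← pow_mul]

section

variable {k : Type v} {L : Type u} [Field k] [CharZero k] [IsAlgClosed k] [Field L] [Algebra k L]

open scoped Classical in
/-- The pull-back of the divisor. -/
noncomputable def upR {K : IntermediateField k L} (N : ℕ) (δ : Place k K → ℝ) (w : Place k L) : ℝ :=
  if h : ∃ (v : Place k K) (e : ℕ), Over w v e ∧ IsDivisorial v N then
    h.choose_spec.choose * δ h.choose else 0

theorem upR_eq {K : IntermediateField k L} (N : ℕ) (δ : Place k K → ℝ) {w : Place k L}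
    {v : Place k K} {e : ℕ} (hw : Over w v e) (hv : IsDivisorial v N) : upR N δ w = e * δ v := by
  have h : ∃ (v : Place k K) (e : ℕ), Over w v e ∧ IsDivisorial v N := ⟨v, e, hw, hv⟩
  unfold upR
  rw [dif_pos h]
  obtain ⟨h1, h2⟩ := over_unique' h.choose_spec.choose_spec.1 hw
  rw [h2, h1]

theorem upR_bound {K : IntermediateField k L} (N : ℕ) (δ : Place k K → ℝ) (T : Finset K)
    (hT : ∀ v : Place k K, IsDivisorial v N → ∃ t ∈ T, δ v ≤ -(v.ord t : ℝ)) (w : Place k L) :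
    upR N δ w ≤ 0 ∨ ∃ t ∈ T, upR N δ w ≤ -(w.ord (t : L) : ℝ) := by
  by_cases h : ∃ (v : Place k K) (e : ℕ), Over w v e ∧ IsDivisorial v N
  · right
    obtain ⟨v, e, hw, hv⟩ := h
    obtain ⟨t, ht, h1⟩ := hT v hv
    refine ⟨t, ht, ?_⟩
    rw [upR_eq N δ hw hv]
    have h2 : w.ord (t : L) = e * v.ord t := hw.2 t
    rw [h2]
    push_cast
    have h3 : (0 : ℝ) ≤ e := by positivity
    have h4 := mul_le_mul_of_nonneg_left h1 h3
    linarith
  · left
    unfold upR
    rw [dif_neg h]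

variable (d n : ℕ) (hn : Algebra.trdeg k L = (d + n : ℕ)) (M : IntermediateField k L)
    [Algebra.EssFiniteType k M] (hM : Algebra.trdeg k M = d)
    (F : Fin n → IntermediateField k L) [hF : ∀ i, IsFF k (F i)]

include hn hM in
/-- Passage to the product. -/
theorem lp_down (hsup : M ⊔ (⨆ i, F i) = ⊤)
    (G : Subgroup (L ≃ₐ[k] L)) [Finite G] (σ : G →* Equiv.Perm (Fin n))
    (hσ : ∀ (g : G) i, ∀ z ∈ F i, (g : L ≃ₐ[k] L) z ∈ F (σ g i))
    (B : ∀ i, Set (Place k ↥(F i ⊓ fixedField (stb G σ i))))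
    (hinv : BdInv G σ F B) (δ : Place k (fixedField G) → ℝ) :
    (LPPsef k (fixedField G) (d + n) (BdQ G σ F B) δ →
      LPPsef k L (d + n) (BdMany M F (fun _ => False) fun i => BFof (F i) (stb G σ i) (B i))
        (fun w => max 0 (upR (d + n) δ w))) ∧
    ∀ a, LPNumLe k L (d + n) (BdMany M F (fun _ => False) fun i => BFof (F i) (stb G σ i) (B i))
        (fun w => max 0 (upR (d + n) δ w)) a →
      LPNumLe k (fixedField G) (d + n) (BdQ G σ F B) δ a := by
  classical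
  have hess := ess_top M F hsup
  have hfinL : FiniteDimensional (fixedField G) L := by
    have hGal : IsGaloisGroup G (fixedField G) L := isGaloisGroup_fixed G
    exact IsGaloisGroup.finiteDimensional G (fixedField G) L
  have hnK : Algebra.trdeg k (fixedField G) = (d + n : ℕ) := by
    rw [← hn, ← trdeg_add_eq k (fixedField G) (A := L),
      trdeg_eq_zero (R := fixedField G) (A := L), add_zero]
  let δ0 : Place k (fixedField G) → ℝ := fun v => if IsDivisorial v (d + n) then δ v else 0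
  have hδ0 : ∀ v, IsDivisorial v (d + n) → δ v = δ0 v := fun v hv => by
    simp only [δ0]; rw [if_pos hv]
  obtain ⟨h1, h2⟩ := trans pFRAME pDIVI k (fixedField G) L (d + n) hnK
    (fun y hy => fin_over_adjoin (d + n) (fixedField G) y hy) (BdQ G σ F B) δ0
    (fun w => max 0 (upR (d + n) δ w)) (fun w v e hw => by
      by_cases hv : IsDivisorial v (d + n)
      · rw [← hδ0 v hv, ← upR_eq (d + n) δ hw hv]
        exact le_max_right _ _
      · simp only [δ0]
        rw [if_neg hv, mul_zero]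
        exact le_max_left _ _)
  have hB : ∀ w, BdUp (BdQ G σ F B) w →
      BdMany M F (fun _ => False) (fun i => BFof (F i) (stb G σ i) (B i)) w := by
    rintro w ⟨v, e, hwv, w', e', hwv', hL⟩
    obtain ⟨g, hg⟩ := pCONJ k L G v w' w e' e hwv' hwv
    obtain ⟨i, p, hp, a, ha⟩ := bdL_inv hσ B hinv g w' w hg hL
    obtain ⟨q, b, c, hq1, hq2⟩ := pREST k L (F i) (F i ⊓ fixedField (stb G σ i)) inf_le_left w p
      a ha
    exact Or.inr ⟨i, q, b, hq1, p, hp, c, hq2⟩
  exact ⟨fun hp => lppsef_mono hB (h1 (lppsef_congr hδ0 hp)), fun a ha =>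
    lpnumle_congr (fun v hv => (hδ0 v hv).symm) (h2 a (lpnumle_mono hB ha))⟩

include hn hM in
/-- A negative curve. -/
theorem lp_neg (hsup : M ⊔ (⨆ i, F i) = ⊤)
    (G : Subgroup (L ≃ₐ[k] L)) [Finite G] (σ : G →* Equiv.Perm (Fin n))
    (hσ : ∀ (g : G) i, ∀ z ∈ F i, (g : L ≃ₐ[k] L) z ∈ F (σ g i))
    (B : ∀ i, Set (Place k ↥(F i ⊓ fixedField (stb G σ i)))) (hB : ∀ i, (B i).Finite)
    (hinv : BdInv G σ F B) (δ : Place k (fixedField G) → ℝ)
    (P : Set (Fin n)) (hP : ∀ i ∈ P, ¬ IsNegative (inf_le_left : F i ⊓ fixedField (stb G σ i) ≤ F i)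
      (B i))
    (hδP : BoundedByR (⨆ i : P, F i) (d + n) δ)
    (hneg : ∃ i, IsNegative (inf_le_left : F i ⊓ fixedField (stb G σ i) ≤ F i) (B i)) :
    ¬ LPPsef k (fixedField G) (d + n) (BdQ G σ F B) δ := by
  classical
  obtain ⟨T, hT1, hT2⟩ := hδP
  have hb := upR_bound (d + n) δ T hT2
  have hdeg := fun i => deg_iff (F i) (stb G σ i) (stb_stable (G := G) (σ := σ) hσ i) (B i) (hB i)
  obtain ⟨i0, hi0⟩ := hneg
  intro hp
  refine neg_many k L d n M F (fun _ => False) (fun i => BFof (F i) (stb G σ i) (B i)) hM hn hsup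
    (fun i => (hdeg i).1) i0 ((hdeg i0).2.1.1 hi0) (fun w => max 0 (upR (d + n) δ w))
    (fun w hw => ?_) ((lp_down d n hn M hM F hsup G σ hσ B hinv δ).1 hp)
  refine max_le le_rfl ?_
  rcases hb w with h3 | ⟨t, ht, h3⟩
  · exact h3
  · have hle : (⨆ i : P, F i) ≤ M ⊔ ⨆ j : {j : Fin n // j ≠ i0}, F j := by
      refine le_trans (iSup_le fun i => ?_) le_sup_right
      exact le_iSup (fun j : {j : Fin n // j ≠ i0} => F j)
        ⟨i, fun h4 => hP i i.2 (h4 ▸ hi0)⟩
    have h5 := hw (t : L) (hle (hT1 t ht).2)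
    rw [h5] at h3
    simpa using h3

include hn hM in
/-- The upper bound for the numerical dimension. -/
theorem lp_num (hsup : M ⊔ (⨆ i, F i) = ⊤)
    (G : Subgroup (L ≃ₐ[k] L)) [Finite G] (σ : G →* Equiv.Perm (Fin n))
    (hσ : ∀ (g : G) i, ∀ z ∈ F i, (g : L ≃ₐ[k] L) z ∈ F (σ g i))
    (B : ∀ i, Set (Place k ↥(F i ⊓ fixedField (stb G σ i)))) (hB : ∀ i, (B i).Finite)
    (hinv : BdInv G σ F B) (δ : Place k (fixedField G) → ℝ)
    (P : Set (Fin n))
    (hP : ∀ i, i ∈ P ↔ ¬ IsNegative (inf_le_left : F i ⊓ fixedField (stb G σ i) ≤ F i) (B i) ∧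
      ¬ IsFlat (inf_le_left : F i ⊓ fixedField (stb G σ i) ≤ F i) (B i))
    (hδP : BoundedByR (⨆ i : P, F i) (d + n) δ)
    (hnn : ∀ i, ¬ IsNegative (inf_le_left : F i ⊓ fixedField (stb G σ i) ≤ F i) (B i))
    (hY : ¬ KodairaNeg k M d) (a : ℕ) (ha : NumLe k M d (fun _ => False) a) :
    LPNumLe k (fixedField G) (d + n) (BdQ G σ F B) δ (a + P.ncard) := by
  classical
  obtain ⟨T, hT1, hT2⟩ := hδP
  have hb := upR_bound (d + n) δ T hT2
  have hdeg := fun i => deg_iff (F i) (stb G σ i) (stb_stable (G := G) (σ := σ) hσ i) (B i) (hB i)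
  refine (lp_down d n hn M hM F hsup G σ hσ B hinv δ).2 _ ?_
  have hPd : ∀ i, i ∈ P ↔
      canDeg k (F i) + ({p | BFof (F i) (stb G σ i) (B i) p}.ncard : ℤ) ≠ 0 := by
    intro i
    rw [hP i, (hdeg i).2.2]
    exact ⟨fun h => h.2, fun h => ⟨hnn i, h⟩⟩
  have hnn' : ∀ i, 0 ≤ canDeg k (F i) + ({p | BFof (F i) (stb G σ i) (B i) p}.ncard : ℤ) :=
    fun i => not_lt.1 ((hdeg i).2.1.not.1 (hnn i))
  obtain ⟨m, η, hm, hη, hη0, hreg⟩ := exists_vanL Pool.Agent.W619.Y.Den.main d n hn M hM F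
    (alg_of_top M F hsup) hY (fun i => BFof (F i) (stb G σ i) (B i)) P (T.image Subtype.val)
    (fun t ht => by
      obtain ⟨s, hs, rfl⟩ := Finset.mem_image.1 ht
      exact (hT1 s hs).2)
    (fun i hi E hE H => by
      have hch : CharZero (F i) := charZero_of_alg (k := k)
      exact exists_coef _ (hdeg i).1 (lt_of_le_of_ne (hnn' i) (Ne.symm ((hPd i).1 hi))) hE H)
    (fun i hi E hE => by
      refine exists_coef_flat (F i) (stb G σ i) (B i) ?_ hE
      by_contra h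
      exact hi ((hP i).2 ⟨hnn i, h⟩))
  refine mul_log k L (d + n) m η (insert 1 (T.image Subtype.val)) _ _ hn hm hη hη0
    (fun w _ => ?_) (fun t ht w hw hb' => (hreg t (by simpa using ht) w hw).1 hb')
    (fun t ht w hw hb' => (hreg t (by simpa using ht) w hw).2 hb') _ ?_
  · rcases hb w with h5 | ⟨t, ht, h5⟩
    · refine ⟨1, by simp, one_ne_zero, ?_⟩
      rw [w.ord_one]
      simpa using h5
    · by_cases h6 : upR (d + n) δ w ≤ 0
      · refine ⟨1, by simp, one_ne_zero, ?_⟩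
        rw [w.ord_one]
        simpa using h6
      · refine ⟨(t : L), Finset.mem_insert_of_mem (Finset.mem_image_of_mem _ ht), ?_, ?_⟩
        · exact fun h7 => (hT1 t ht).1 (Subtype.ext h7)
        · exact max_le (le_trans (not_le.1 h6).le h5) h5
  · have h5 := (pMANYB k L d n M F (fun _ => False) (fun i => BFof (F i) (stb G σ i) (B i)) hM hn
      hsup (fun i => (hdeg i).1)).2.2.2 a hnn' ha
    have h6 : {i | canDeg k (F i) + ({p | BFof (F i) (stb G σ i) (B i) p}.ncard : ℤ) ≠ 0} = P := by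
      ext i
      exact (hPd i).symm
    rwa [h6] at h5

include hn hM in
/-- Nonvanishing for log canonical pairs. -/
theorem lp_nv (hsup : M ⊔ (⨆ i, F i) = ⊤)
    (G : Subgroup (L ≃ₐ[k] L)) [Finite G] (σ : G →* Equiv.Perm (Fin n))
    (hσ : ∀ (g : G) i, ∀ z ∈ F i, (g : L ≃ₐ[k] L) z ∈ F (σ g i))
    (B : ∀ i, Set (Place k ↥(F i ⊓ fixedField (stb G σ i)))) (hB : ∀ i, (B i).Finite)
    (hinv : BdInv G σ F B) (h : LogMixedNonneg G σ F B) (δ : Place k (fixedField G) → ℝ)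
    (hδ : ∀ v, 0 ≤ δ v) (P : Set (Fin n))
    (hP : ∀ i ∈ P, ¬ IsNegative (inf_le_left : F i ⊓ fixedField (stb G σ i) ≤ F i) (B i))
    (hδP : BoundedByR (⨆ i : P, F i) (d + n) δ) (hY : IsEff k M d (fun _ => False)) :
    (LPPsef k (fixedField G) (d + n) (BdQ G σ F B) δ ↔
      LPEff k (fixedField G) (d + n) (BdQ G σ F B) δ) ∧
    (LPEff k (fixedField G) (d + n) (BdQ G σ F B) δ ↔
      ∀ i, ¬ IsNegative (inf_le_left : F i ⊓ fixedField (stb G σ i) ≤ F i) (B i)) := by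
  have h1 : LPPsef k (fixedField G) (d + n) (BdQ G σ F B) δ →
      ∀ i, ¬ IsNegative (inf_le_left : F i ⊓ fixedField (stb G σ i) ≤ F i) (B i) := by
    intro hp i hi
    exact lp_neg d n hn M hM F hsup G σ hσ B hB hinv δ P hP hδP ⟨i, hi⟩ hp
  have h2 : (∀ i, ¬ IsNegative (inf_le_left : F i ⊓ fixedField (stb G σ i) ≤ F i) (B i)) →
      LPEff k (fixedField G) (d + n) (BdQ G σ F B) δ := fun h3 =>
    lpeff_of hδ ((nvLM d n hn M hM F (alg_of_top M F hsup) G σ hσ B hB hinv h).1 hY h3)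
  have h3 : LPEff k (fixedField G) (d + n) (BdQ G σ F B) δ →
      LPPsef k (fixedField G) (d + n) (BdQ G σ F B) δ := lppsef_of_eff
  exact ⟨⟨fun h => h2 (h1 h), h3⟩, ⟨fun h => h1 (h3 h), h2⟩⟩

include hn hM in
/-- Kodaira dimension and numerical dimension of log canonical pairs. -/
theorem lp_ab (hsup : M ⊔ (⨆ i, F i) = ⊤)
    (G : Subgroup (L ≃ₐ[k] L)) [Finite G] (σ : G →* Equiv.Perm (Fin n))
    (hσ : ∀ (g : G) i, ∀ z ∈ F i, (g : L ≃ₐ[k] L) z ∈ F (σ g i))
    (B : ∀ i, Set (Place k ↥(F i ⊓ fixedField (stb G σ i)))) (hB : ∀ i, (B i).Finite)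
    (hinv : BdInv G σ F B) (h : LogMixedPos G σ F B) (δ : Place k (fixedField G) → ℝ)
    (hδ : ∀ v, 0 ≤ δ v) (P : Set (Fin n))
    (hP : ∀ i, i ∈ P ↔ ¬ IsNegative (inf_le_left : F i ⊓ fixedField (stb G σ i) ≤ F i) (B i) ∧
      ¬ IsFlat (inf_le_left : F i ⊓ fixedField (stb G σ i) ≤ F i) (B i))
    (hδP : BoundedByR (⨆ i : P, F i) (d + n) δ) (a : ℕ) (ha : KodTr k M d a)
    (hν : NumLe k M d (fun _ => False) a)
    (hpe : LPPsef k (fixedField G) (d + n) (BdQ G σ F B) δ) :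
    (∀ i, ¬ IsNegative (inf_le_left : F i ⊓ fixedField (stb G σ i) ≤ F i) (B i)) ∧
      LPKodGe k (fixedField G) (d + n) (BdQ G σ F B) δ (a + P.ncard) ∧
      LPNumLe k (fixedField G) (d + n) (BdQ G σ F B) δ (a + P.ncard) := by
  have hneg : ∀ i, ¬ IsNegative (inf_le_left : F i ⊓ fixedField (stb G σ i) ≤ F i) (B i) :=
    fun i hi => lp_neg d n hn M hM F hsup G σ hσ B hB hinv δ P (fun i hi => ((hP i).1 hi).1) hδP
      ⟨i, hi⟩ hpe
  have hkod : ¬ KodairaNeg k M d := fun h3 =>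
    (kodairaNeg_of_not_eff.2 h3) (eff_of_kodTr ha)
  have hPe : {i | ¬ IsFlat (inf_le_left : F i ⊓ fixedField (stb G σ i) ≤ F i) (B i)} = P := by
    ext i
    rw [hP i]
    exact ⟨fun h4 => ⟨hneg i, h4⟩, fun h4 => h4.2⟩
  have h1 := ((abLM d n hn M hM F (alg_of_top M F hsup) G σ hσ B hB hinv h).1 hneg a ha).2
  rw [hPe] at h1
  exact ⟨hneg, lpkod_of hδ h1, lp_num d n hn M hM F hsup G σ hσ B hB hinv δ P hP hδP hneg hkod a
    hν⟩

end

end Pool.Agent.TH194.LP
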