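import Pool.Agent.W619.TW.PDefs

/-! Definitions: sections of `m (K_X + D + Δ) + j A`, for a reduced boundary `D` and an `ℝ`-divisor
`Δ` given by its multiplicities along all divisors. -/

set_option autoImplicit false
set_option linter.overlappingInstances false
set_option linter.unusedSectionVars false

universe u v

open FF IntermediateField Pool.Agent.W619.PQ Pool.Agent.W619.PL Pool.Agent.W619.TW

namespace Pool.Agent.TH194.LP

section

variable (k : Type u) (K : Type v) [Field k] [Field K] [Algebra k K]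

/-- `ω` is a section of `m (K_X + D + Δ) + j A`, where the divisors over the reduced divisor `D` are
those with the property `Bd`, the effective `ℝ`-divisor `Δ` is given by its multiplicities `δ v`
along all divisors `v`, and `A` is the divisor generated by the finite set `S` of functions: `ω` is
an `m`-fold pluricanonical form, and its values on the vector fields which are regular along `v`
(logarithmic along `v`, if `v` lies over `D`) are zero or have order at least `j v(s) - m δ(v)`, for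
some nonzero `s ∈ S`. -/
def IsLPSec (n : ℕ) (Bd : Place k K → Prop) (δ : Place k K → ℝ) (S : Finset K) (m j : ℕ)
    (ω : (Fin n → Derivation k K K) → K) : Prop :=
  IsPluriForm k K n m ω ∧
  (∀ v : Place k K, IsDivisorial v n → ¬ Bd v → ∀ D : Fin n → Derivation k K K,
    (∀ l, ∀ f, v.Reg f → v.Reg (D l f)) →
    ω D = 0 ∨ ∃ s ∈ S, s ≠ 0 ∧ (j : ℝ) * v.ord s - m * δ v ≤ v.ord (ω D)) ∧
  (∀ v : Place k K, IsDivisorial v n → Bd v → ∀ D : Fin n → Derivation k K K,
    (∀ l, ∀ f, v.Reg (D l f / f)) →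
    ω D = 0 ∨ ∃ s ∈ S, s ≠ 0 ∧ (j : ℝ) * v.ord s - m * δ v ≤ v.ord (ω D))

/-- `K_X + D + Δ` is pseudo-effective: there is a divisor `A` (generated by a finite set `S` of
functions) such that for every `N`, some multiple of `N (K_X + D + Δ) + A` has a nonzero section. -/
def LPPsef (n : ℕ) (Bd : Place k K → Prop) (δ : Place k K → ℝ) : Prop :=
  ∃ S : Finset K, ∀ N : ℕ, ∃ j : ℕ, 1 ≤ j ∧ ∃ ω : (Fin n → Derivation k K K) → K,
    IsLPSec k K n Bd δ S (j * N) j ω ∧ ∃ D, ω D ≠ 0

/-- `κ (K_X + D + Δ) ≥ 0`: some positive multiple of `K_X + D + Δ` has a nonzero section. -/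
def LPEff (n : ℕ) (Bd : Place k K → Prop) (δ : Place k K → ℝ) : Prop :=
  ∃ m : ℕ, 1 ≤ m ∧ ∃ ω : (Fin n → Derivation k K K) → K,
    IsLPSec k K n Bd δ {1} m 0 ω ∧ ∃ D, ω D ≠ 0

/-- `κ (K_X + D + Δ) ≥ h`: there is `m ≥ 1` with `h⁰ (j m (K_X + D + Δ)) ≥ j ^ h` for all
`j ≥ 1`. -/
def LPKodGe (n : ℕ) (Bd : Place k K → Prop) (δ : Place k K → ℝ) (h : ℕ) : Prop :=
  ∃ m : ℕ, 1 ≤ m ∧ ∀ j : ℕ, 1 ≤ j → HasIndep k K n (j ^ h) (IsLPSec k K n Bd δ {1} (j * m) 0)

/-- `ν (K_X + D + Δ) ≤ h`: for every divisor `A` (generated by a finite set `S` of functions) there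
is a constant `C` with `h⁰ (m (K_X + D + Δ) + A) ≤ C m ^ h` for all `m ≥ 1`. -/
def LPNumLe (n : ℕ) (Bd : Place k K → Prop) (δ : Place k K → ℝ) (h : ℕ) : Prop :=
  ∀ S : Finset K, ∃ C : ℕ, ∀ m N : ℕ, 1 ≤ m →
    HasIndep k K n N (IsLPSec k K n Bd δ S m 1) → N ≤ C * m ^ h

end

section

variable {k : Type u} {L : Type v} [Field k] [Field L] [Algebra k L]

/-- `Δ` is at most the pull-back of a divisor (generated by a finite set `T` of nonzero functions)
of the variety with function field `M ∩ K`. -/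
def BoundedByR (M : IntermediateField k L) {K : IntermediateField k L} (n : ℕ)
    (δ : Place k K → ℝ) : Prop :=
  ∃ T : Finset K, (∀ t ∈ T, t ≠ 0 ∧ (t : L) ∈ M) ∧
    ∀ v : Place k K, IsDivisorial v n → ∃ t ∈ T, δ v ≤ -(v.ord t : ℝ)

end

end Pool.Agent.TH194.LP
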