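import Pool.Agent.TH194.LP.Pull
import Pool.Agent.W619.Y.Stm9
import Pool.Agent.W511.PG.FIBJB
import Pool.Agent.W740.PG.ONEB
import Pool.Agent.W53.PG.ManyB
import Pool.Agent.W824.PG.Many

/-! `K_X + D + Δ` is not pseudo-effective on a variety fibred in projective or affine lines, if `Δ`
is vertical. The estimate is adapted from `Pool.Agent.W511.PG.FIBJB`. -/

set_option autoImplicit false
set_option linter.overlappingInstances false
set_option linter.unusedSectionVars false

universe u v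

open Polynomial FF IntermediateField Pool.Agent.W619.PQ Pool.Agent.W619.PL Pool.Agent.W619.TW
  Pool.Agent.W603.LV Pool.Agent.W479.PG Pool.Agent.W511.PG.FIBJB Pool.Agent.W619.Y
  Pool.Agent.W824.PG

namespace Pool.Agent.TH194.LP

section

variable {k : Type v} {L : Type u} [Field k] [Field L] [Algebra k L] [CharZero k] [IsAlgClosed k]
  {M F : IntermediateField k L}

/-- Sections along the places over `M`. -/
def SecM (M : IntermediateField k L) (n m j : ℕ) (Bd : Place k L → Prop) (S : Finset L)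
    (ω : (Fin n → Derivation k L L) → L) : Prop :=
  IsPluriForm k L n m ω ∧
  (∀ w : Place M L, IsDivisorial (rk w : Place k L) n → ¬ Bd (rk w) →
    ∀ D : Fin n → Derivation k L L, (∀ l, ∀ f, (rk w : Place k L).Reg f →
      (rk w : Place k L).Reg (D l f)) → Dom (rk w : Place k L) S j (ω D)) ∧
  (∀ w : Place M L, IsDivisorial (rk w : Place k L) n → Bd (rk w) →
    ∀ D : Fin n → Derivation k L L, (∀ l, ∀ f, (rk w : Place k L).Reg (D l f / f)) →
      Dom (rk w : Place k L) S j (ω D))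

section

variable [IsFF k F] {d : ℕ} {y : Fin d → M} {E : Fin (d + 1) → Derivation k L L}
  {δ : Derivation k F F} {dM : Fin d → Derivation k M M}

/-- The local bound. -/
theorem local1M (h : Cur M F) (hy : AlgebraicIndependent k y)
    (hEM : ∀ l (z : M), E (Fin.succ l) (z : L) = (dM l z : L))
    (hEF : ∀ l : Fin d, ∀ β : F, E l.succ (β : L) = 0) (hE0 : ∀ μ : M, E 0 (μ : L) = 0)
    (hEδ : ∀ β : F, E 0 (β : L) = (δ β : L)) (hδ : δ ≠ 0)
    {BY : Place k M → Prop} {BF : Place k F → Prop} {S : Finset L} {m j : ℕ}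
    {ω : (Fin (d + 1) → Derivation k L L) → L}
    (hω : SecM M (d + 1) m j (Pool.Agent.W619.Y.BdTwo M F BY BF) S ω)
    (w : Place M L) (c : ℤ)
    (hc : ((∀ β : F, w.ord (β : L) = 0) ∧ c = 0) ∨
      ∃ q : Place k F, (∀ β : F, w.ord (β : L) = q.ord β) ∧
        ((¬ BF q ∧ c = vo q δ) ∨ (BF q ∧ c = vo q δ - 1))) :
    ω E = 0 ∨ ∃ s ∈ S, s ≠ 0 ∧ m * c + j * w.ord s ≤ w.ord (ω E) := by
  classical
  have hdiv := divisorial1 hy w
  rcases hc with ⟨htriv, rfl⟩ | ⟨q, hq, hc⟩
  · have hall : ∀ l, Pres (rk w) (E l) := by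
      intro l
      refine Fin.cases ?_ (fun l => ?_) l
      · exact pres_zero_triv h hE0 hEδ w htriv
      · exact pres_succ h hEM hEF w l
    rcases hω.2.1 w hdiv (not_bd_triv BY BF w htriv) E hall with h1 | ⟨s, hs, hs0, h1⟩
    · exact Or.inl h1
    · refine Or.inr ⟨s, hs, hs0, ?_⟩
      change (j : ℤ) * w.ord s ≤ w.ord (ω E) at h1
      rw [mul_zero, zero_add]; exact h1
  · obtain ⟨t, ht0, ht⟩ := q.surj
    have hDt := der_pi_ne_zero hδ q ht
    have hDt' : ((δ t : F) : L) ≠ 0 := fun h => hDt (Subtype.ext h)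
    have hvo : w.ord ((δ t : F) : L) = vo q δ := by
      rw [hq]; exact vo_eq q ht hδ
    have htL : ((t : F) : L) ≠ 0 := fun h => ht0 (Subtype.ext h)
    have hwt : w.ord ((t : F) : L) = 1 := by rw [hq, ht]
    by_cases h0 : ω E = 0
    · exact Or.inl h0
    right
    rcases hc with ⟨hB, rfl⟩ | ⟨hB, rfl⟩
    · have hall : ∀ l, Pres (rk w)
          ((fun l => if l = 0 then ((δ t : F) : L)⁻¹ • E l else E l) l) := by
        intro l
        refine Fin.cases ?_ (fun l => ?_) l
        · simp only [if_true]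
          exact pres_zero_over h hE0 hEδ hδ w q hq ht
        · simp only [if_neg (Fin.succ_ne_zero l)]
          exact pres_succ h hEM hEF w l
      have hnb : ¬ Pool.Agent.W619.Y.BdTwo M F BY BF (rk w) := by
        rw [bd_over BY BF w q hq]; exact hB
      have h1 := hω.2.1 w hdiv hnb _ hall
      rw [pluri_scaled hω.1 E 0 (((δ t : F) : L)⁻¹)] at h1
      rcases h1 with h1 | ⟨s, hs, hs0, h1⟩
      · exact absurd h1 (mul_ne_zero (pow_ne_zero _ (inv_ne_zero hDt')) h0)
      refine ⟨s, hs, hs0, ?_⟩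
      change (j : ℤ) * w.ord s ≤ w.ord (((δ t : F) : L)⁻¹ ^ m * ω E) at h1
      rw [w.ord_mul (pow_ne_zero _ (inv_ne_zero hDt')) h0, w.ord_pow,
        w.ord_inv, hvo] at h1
      linarith
    · have hg0 : ((t : F) : L) * ((δ t : F) : L)⁻¹ ≠ 0 := mul_ne_zero htL (inv_ne_zero hDt')
      have hall : ∀ l, ∀ f, (rk w).Reg
          ((fun l => if l = 0 then (((t : F) : L) * ((δ t : F) : L)⁻¹) • E l else E l) l f / f) := by
        intro l f
        have htrk : (rk w).ord ((t : F) : L) = 1 := hwt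
        refine Fin.cases ?_ (fun l => ?_) l
        · simp only [if_true]
          refine log_of_pres (rk w) ((((t : F) : L) * ((δ t : F) : L)⁻¹) • E 0) ?_ htL htrk ?_ f
          · intro z hz
            have h2 : Ge w 0 ((((δ t : F) : L)⁻¹ • E 0) z) :=
              pres_zero_over h hE0 hEδ hδ w q hq ht z hz
            have h3 : Ge w 0 ((t : F) : L) := Or.inr (by rw [hwt]; norm_num)
            have h4 := h3.mul h2
            rw [add_zero] at h4
            have h5 : ((((t : F) : L) * ((δ t : F) : L)⁻¹) • E 0) z =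
                ((t : F) : L) * ((((δ t : F) : L)⁻¹ • E 0) z) := by
              rw [Derivation.coe_smul, Pi.smul_apply, Derivation.coe_smul, Pi.smul_apply,
                smul_eq_mul, smul_eq_mul, mul_assoc]
            rw [h5]
            exact h4
          · rw [Derivation.coe_smul, Pi.smul_apply, hEδ, smul_eq_mul,
              inv_mul_cancel_right₀ hDt', div_self htL]
            exact w.reg_one
        · simp only [if_neg (Fin.succ_ne_zero l)]
          refine log_of_pres (rk w) (E l.succ) (pres_succ h hEM hEF w l) htL htrk ?_ f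
          rw [hEF, zero_div]
          exact w.reg_zero
      have hb : Pool.Agent.W619.Y.BdTwo M F BY BF (rk w) := (bd_over BY BF w q hq).2 hB
      have h1 := hω.2.2 w hdiv hb _ hall
      rw [pluri_scaled hω.1 E 0 (((t : F) : L) * ((δ t : F) : L)⁻¹)] at h1
      rcases h1 with h1 | ⟨s, hs, hs0, h1⟩
      · exact absurd h1 (mul_ne_zero (pow_ne_zero _ hg0) h0)
      refine ⟨s, hs, hs0, ?_⟩
      change (j : ℤ) * w.ord s ≤ w.ord ((((t : F) : L) * ((δ t : F) : L)⁻¹) ^ m * ω E) at h1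
      rw [w.ord_mul (pow_ne_zero _ hg0) h0, w.ord_pow, w.ord_mul htL (inv_ne_zero hDt'),
        w.ord_inv, hvo, hwt] at h1
      linarith

end

end

theorem fibM (k : Type v) (L : Type u) [Field k] [CharZero k] [IsAlgClosed k]
    [Field L] [Algebra k L] (M F : IntermediateField k L) [IsFF k F] (d : ℕ)
    (BY : Place k M → Prop) (BF : Place k F → Prop)
    (hM : Algebra.trdeg k M = d) (hL : Algebra.trdeg k L = (d + 1 : ℕ)) (hsup : M ⊔ F = ⊤)
    (hfin : {p | BF p}.Finite)
    (y : Fin d → M) (hy : IsTranscendenceBasis k y) (t : F) (ht : Transcendental k t)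
    (E : Fin (d + 1) → Derivation k L L) (hE0 : ∀ μ : M, E 0 (μ : L) = 0) (hEt : E 0 (t : L) = 1)
    (hEF : ∀ l : Fin d, ∀ β : F, E l.succ (β : L) = 0)
    (hEy : ∀ l j : Fin d, E l.succ (y j : L) = if l = j then 1 else 0)
    (S : Finset L) : ∃ (b0 : L) (A0 : ℕ), b0 ≠ 0 ∧ ∀ m j : ℕ, ∃ W : Submodule k F,
      FiniteDimensional k W ∧
      (Module.finrank k W : ℤ) ≤ max 0 (m * (canDeg k F + {p | BF p}.ncard) + j * A0 + 1) ∧
      ∀ ω : (Fin (d + 1) → Derivation k L L) → L,
        SecM M (d + 1) m j (Pool.Agent.W619.Y.BdTwo M F BY BF) S ω →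
        b0 ^ j * ω E ∈ Submodule.span M ((fun β : F => (β : L)) '' (W : Set F)) := by
  classical
  have hcur : Cur M F := cur_of hM hL hsup
  -- the derivation of `F`
  obtain ⟨δ, hδ, hδt⟩ := exists_ddx ht
  have hEδ : ∀ β : F, E 0 (β : L) = (δ β : L) := by
    intro β
    obtain ⟨r, hr1, hr2⟩ := ratio' (K := L) ht β
    have h1 := hr1 δ
    rw [hδt, mul_one] at h1
    have h2 := hr2 (E 0)
    change E 0 (β : L) = (r : L) * E 0 (t : L) at h2
    rw [hEt, mul_one] at h2
    rw [h2, h1]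
  -- the derivations of `M`
  choose dM hdM using fun l => exists_dual y hy l
  have hEM : ∀ l (z : M), E (Fin.succ l) (z : L) = (dM l z : L) := by
    intro l z
    refine der_comp (dM l) (E l.succ) y hy (fun j => ?_) z
    change E l.succ (y j : L) = ((dM l (y j) : M) : L)
    rw [hEy, hdM]
    by_cases h : j = l
    · subst h; simp
    · rw [if_neg h, if_neg (fun h' => h h'.symm)]; simp
  obtain ⟨b0, -, hb0, hbS⟩ := exists_den1 hcur S
  obtain ⟨C, hC, hCdeg⟩ := exists_C1 hδ
  obtain ⟨B, hB, hBdeg⟩ := exists_B BF hfin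
  have hA : ∀ s : L, ∃ A : Place k F →₀ ℤ, 0 ≤ A ∧ (s ∈ S → ∀ (w : Place M L)
      (q : Place k F), (∀ β : F, w.ord (β : L) = q.ord β) → Ge w (-A q) (b0 * s)) := by
    intro s
    by_cases hs : s ∈ S
    · obtain ⟨A, hA, h⟩ := (bound_RR (hbS s hs)).2
      exact ⟨A, hA, fun _ => h⟩
    · exact ⟨0, le_rfl, fun h => absurd h hs⟩
  choose A hA0 hA using hA
  refine ⟨b0, (ddeg (∑ s ∈ S, A s)).toNat, hb0, fun m j => ?_⟩
  set D : Place k F →₀ ℤ := m • (C + B) + j • ∑ s ∈ S, A s with hD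
  refine ⟨LL D, inferInstance, ?_, fun ω hω => ?_⟩
  · have h1 := finrank_LL_le D
    have h2 : ddeg D = m * (canDeg k F + {p | BF p}.ncard) + j * ddeg (∑ s ∈ S, A s) := by
      rw [hD, ddeg_add, ddeg_nsmul, ddeg_nsmul, ddeg_add, hCdeg, hBdeg]
    rw [h2] at h1
    have h3 : (j : ℤ) * ddeg (∑ s ∈ S, A s) ≤ j * (ddeg (∑ s ∈ S, A s)).toNat :=
      mul_le_mul_of_nonneg_left (Int.self_le_toNat _) (by positivity)
    generalize (m : ℤ) * (canDeg k F + {p | BF p}.ncard) = X at h1 ⊢
    generalize (j : ℤ) * ddeg (∑ s ∈ S, A s) = Y at h1 h3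
    generalize (j : ℤ) * ((ddeg (∑ s ∈ S, A s)).toNat : ℤ) = Z at h3 ⊢
    omega
  · have hloc : ∀ (w : Place M L) (c : ℤ) (N : ℤ),
        (((∀ β : F, w.ord (β : L) = 0) ∧ c = 0) ∨
        ∃ q : Place k F, (∀ β : F, w.ord (β : L) = q.ord β) ∧
          ((¬ BF q ∧ c = vo q δ) ∨ (BF q ∧ c = vo q δ - 1))) →
        (∀ s ∈ S, s ≠ 0 → N ≤ m * c + j * w.ord (b0 * s)) → Ge w N (b0 ^ j * ω E) := by
      intro w c N hc hN
      rcases local1M hcur hy.1 hEM hEF hE0 hEδ hδ hω w c hc with h | ⟨s, hs, hs0, h⟩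
      · left; rw [h, mul_zero]
      · by_cases h0 : ω E = 0
        · left; rw [h0, mul_zero]
        right
        have h1 := hN s hs hs0
        rw [w.ord_mul hb0 hs0] at h1
        rw [w.ord_mul (pow_ne_zero _ hb0) h0, w.ord_pow]
        linarith
    obtain ⟨s, β, hs, hβ⟩ := hcur.mem_span D (b0 ^ j * ω E)
      (fun w hw => hloc w 0 0 (Or.inl ⟨hw, rfl⟩) (by
        intro s hs hs0
        have h1 := (bound_RR (hbS s hs)).1 w hw
        have h2 := h1.resolve_left (mul_ne_zero hb0 hs0)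
        have : (0 : ℤ) ≤ j * w.ord (b0 * s) := mul_nonneg (by positivity) h2
        linarith))
      (fun w q hw => by
        have hDq : D q = m * (C q + B q) + j * ∑ s ∈ S, A s q := by
          rw [hD, Finsupp.add_apply, Finsupp.smul_apply, Finsupp.smul_apply, Finsupp.add_apply,
            Finsupp.finsetSum_apply, nsmul_eq_mul, nsmul_eq_mul]
        have hstep : ∀ c : ℤ, C q + B q = -c → ∀ s ∈ S, s ≠ 0 →
            -D q ≤ m * c + j * w.ord (b0 * s) := by
          intro c hc s hs hs0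
          have h1 := hA s hs w q hw
          have h2 := h1.resolve_left (mul_ne_zero hb0 hs0)
          have h3 := Finset.single_le_sum (f := fun s => A s q) (fun s _ => hA0 s q) hs
          have h4 : -(∑ s ∈ S, A s q) ≤ w.ord (b0 * s) := by linarith
          have h5 := mul_le_mul_of_nonneg_left h4 (by positivity : (0 : ℤ) ≤ j)
          rw [hDq, hc]
          linarith
        by_cases hBq : BF q
        · exact hloc w (vo q δ - 1) _ (Or.inr ⟨q, hw, Or.inr ⟨hBq, rfl⟩⟩)
            (hstep _ (by rw [hC, (hB q).1 hBq]; ring))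
        · exact hloc w (vo q δ) _ (Or.inr ⟨q, hw, Or.inl ⟨hBq, rfl⟩⟩)
            (hstep _ (by rw [hC, (hB q).2 hBq]; ring)))
    rw [hs]
    refine Submodule.sum_mem _ fun l hl => ?_
    have h1 : ((Module.Basis.ofVectorSpace k M l : M) : L) * (β l : L) =
        (Module.Basis.ofVectorSpace k M l : M) • (β l : L) := by
      rw [Algebra.smul_def]; rfl
    rw [h1]
    exact Submodule.smul_mem _ _ (Submodule.subset_span ⟨β l, hβ l hl, rfl⟩)



/-- One curve of negative degree: `K + D + Δ` is not pseudo-effective. -/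
theorem neg_one (k : Type v) (L : Type u) [Field k] [CharZero k] [IsAlgClosed k]
    [Field L] [Algebra k L] (M F : IntermediateField k L) [IsFF k F] (d : ℕ)
    (BY : Place k M → Prop) (BF : Place k F → Prop)
    (hM : Algebra.trdeg k M = d) (hL : Algebra.trdeg k L = (d + 1 : ℕ)) (hsup : M ⊔ F = ⊤)
    (hfin : {p | BF p}.Finite) (hdeg : canDeg k F + {p | BF p}.ncard < 0)
    (δ : Place k L → ℝ) (hδ : ∀ w : Place k L, (∀ z ∈ M, w.ord z = 0) → δ w ≤ 0) :
    ¬ LPPsef k L (d + 1) (Pool.Agent.W619.Y.BdTwo M F BY BF) δ := by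
  classical
  rintro ⟨S, hS⟩
  obtain ⟨y, hy⟩ := Pool.Agent.W460.PG.ONE.exists_basis M d hM
  obtain ⟨t, ht⟩ := IsFF.exists_transcendental (k := k) (K := F)
  have hx := Pool.Agent.W460.PG.ONE.basis_cons M F d hL hsup y hy t ht
  choose E hE using fun j => exists_dual (Fin.cons (t : L) (fun i => (y i : L)) : Fin (d + 1) → L)
    hx j
  have hE0t : E 0 (t : L) = 1 := by
    have h := hE 0 0
    rw [Fin.cons_zero, if_pos rfl] at h
    exact h
  have hE0M : ∀ μ : M, E 0 (μ : L) = 0 := by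
    intro μ
    refine der_zero (K := M) (L := L) ((E 0).compAlgebraMap M) y hy (fun i => ?_) μ
    change E 0 (y i : L) = 0
    have h := hE 0 i.succ
    rw [Fin.cons_succ, if_neg (Fin.succ_ne_zero i)] at h
    exact h
  have hEy : ∀ l j : Fin d, E l.succ (y j : L) = if l = j then 1 else 0 := by
    intro l j
    have h := hE l.succ j.succ
    rw [Fin.cons_succ] at h
    rw [h]
    by_cases hlj : l = j
    · rw [if_pos hlj, if_pos (by rw [hlj])]
    · rw [if_neg hlj, if_neg (fun h => hlj (Fin.succ_injective _ h).symm)]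
  have hEF : ∀ l : Fin d, ∀ β : F, E l.succ (β : L) = 0 := by
    intro l β
    obtain ⟨r, -, hr2⟩ := ratio' (K := L) ht β
    have h3 := hr2 (E l.succ)
    change E l.succ (β : L) = (r : L) * E l.succ (t : L) at h3
    have h4 := hE l.succ 0
    rw [Fin.cons_zero, if_neg (Fin.succ_ne_zero l).symm] at h4
    rw [h3, h4, mul_zero]
  obtain ⟨b0, A0, hb0, hW⟩ :=
    fibM k L M F d BY BF hM hL hsup hfin y hy t ht E hE0M hE0t hEF hEy S
  obtain ⟨j, hj, ω, hω, D, hD⟩ := hS (A0 + 1)
  obtain ⟨W, hWfin, hWr, hWmem⟩ := hW (j * (A0 + 1)) j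
  have hδw : ∀ w : Place M L, δ (rk w) ≤ 0 := fun w => hδ _ fun z hz => ord_M w hz
  have hdom : ∀ (w : Place M L) (f : L), (f = 0 ∨ ∃ s ∈ S, s ≠ 0 ∧
      (j : ℝ) * (rk w : Place k L).ord s - (j * (A0 + 1) : ℕ) * δ (rk w) ≤
        (rk w : Place k L).ord f) → Dom (rk w : Place k L) S j f := by
    rintro w f (h0 | ⟨s, hs, hs0, h1⟩)
    · exact Or.inl h0
    · right
      refine ⟨s, hs, hs0, ?_⟩
      have h2 : ((j * (A0 + 1) : ℕ) : ℝ) * δ (rk w) ≤ 0 :=
        mul_nonpos_of_nonneg_of_nonpos (by positivity) (hδw w)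
      have h3 : (j : ℝ) * (rk w : Place k L).ord s ≤ (rk w : Place k L).ord f := by linarith
      exact_mod_cast h3
  have hsec : SecM M (d + 1) (j * (A0 + 1)) j (Pool.Agent.W619.Y.BdTwo M F BY BF) S ω :=
    ⟨hω.1, fun w hw hb D' hD' => hdom w _ (hω.2.1 _ hw hb D' hD'),
      fun w hw hb D' hD' => hdom w _ (hω.2.2 _ hw hb D' hD')⟩
  have hmem := hWmem ω hsec
  have hj' : (1 : ℤ) ≤ j := by exact_mod_cast hj
  have hA : (0 : ℤ) ≤ A0 := Int.natCast_nonneg A0
  have h5 : ((j * (A0 + 1) : ℕ) : ℤ) * (canDeg k F + {p | BF p}.ncard) + j * A0 + 1 ≤ 0 := by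
    push_cast
    nlinarith [mul_nonneg (by linarith : (0 : ℤ) ≤ j) hA, mul_nonneg
      (mul_nonneg (by linarith : (0 : ℤ) ≤ j) (by linarith : (0 : ℤ) ≤ (A0 : ℤ) + 1))
      (by linarith : (0 : ℤ) ≤ -1 - (canDeg k F + {p | BF p}.ncard))]
  have h6 : Module.finrank k W = 0 := by
    have h7 : (Module.finrank k W : ℤ) ≤ 0 := hWr.trans (max_le le_rfl h5)
    omega
  have hW0 : W = ⊥ := Submodule.finrank_eq_zero.1 h6
  rw [hW0] at hmem
  have h7 : (fun β : F => (β : L)) '' ((⊥ : Submodule k F) : Set F) ⊆ {0} := by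
    rintro _ ⟨β, hβ, rfl⟩
    have : β = 0 := by simpa using hβ
    simp [this]
  have h8 : b0 ^ j * ω E ∈ Submodule.span M ({0} : Set L) := Submodule.span_mono h7 hmem
  rw [Submodule.span_zero_singleton, Submodule.mem_bot] at h8
  have hωE : ω E ≠ 0 := by
    intro h0
    apply hD
    rw [Pool.Agent.W460.PG.ONE.eval _ hx E (fun i j => hE j i) hω.1 D, h0, mul_zero]
  exact mul_ne_zero (pow_ne_zero j hb0) hωE h8

/-- One curve of negative degree among many: `K + D + Δ` is not pseudo-effective. -/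
theorem neg_many (k : Type v) (L : Type u) [Field k] [CharZero k] [IsAlgClosed k]
    [Field L] [Algebra k L] (d n : ℕ) (M : IntermediateField k L)
    (F : Fin n → IntermediateField k L) [∀ i, IsFF k (F i)] (BY : Place k M → Prop)
    (BF : ∀ i, Place k (F i) → Prop)
    (hM : Algebra.trdeg k M = d) (hL : Algebra.trdeg k L = (d + n : ℕ))
    (hsup : M ⊔ (⨆ i, F i) = ⊤) (hfin : ∀ i, {p | BF i p}.Finite) (i0 : Fin n)
    (hdeg : canDeg k (F i0) + {p | BF i0 p}.ncard < 0)
    (δ : Place k L → ℝ)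
    (hδ : ∀ w : Place k L, (∀ z ∈ M ⊔ ⨆ j : {j : Fin n // j ≠ i0}, F j, w.ord z = 0) →
      δ w ≤ 0) :
    ¬ LPPsef k L (d + n) (BdMany M F BY BF) δ := by
  classical
  obtain ⟨r, rfl⟩ : ∃ r, n = r + 1 := ⟨n - 1, by have := i0.pos; omega⟩
  let N : IntermediateField k L := M ⊔ ⨆ i : Fin r, F (i0.succAbove i)
  have hMN : M ≤ N := le_sup_left
  have hFN : ∀ i : Fin r, F (i0.succAbove i) ≤ N := fun i =>
    (le_iSup (fun i : Fin r => F (i0.succAbove i)) i).trans le_sup_right
  let M0 : IntermediateField k N := restrict hMN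
  let F0 : Fin r → IntermediateField k N := fun i => restrict (hFN i)
  have hF0 : ∀ i, IsFF k (F0 i) := fun i => isFF_equiv (restrictAlgEquiv (hFN i)) inferInstance
  have hM0 : Algebra.trdeg k M0 = d := by rw [← hM]; exact (restrictAlgEquiv hMN).symm.trdeg_eq
  have hsup0 : M0 ⊔ ⨆ i, F0 i = ⊤ := by
    apply lift_injective N
    rw [lift_sup, lift_top, lift_restrict]
    have h4 : lift (⨆ i, F0 i) = ⨆ i : Fin r, F (i0.succAbove i) := by
      rw [lift, IntermediateField.map_iSup]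
      exact iSup_congr fun i => lift_restrict (hFN i)
    rw [h4]
  have hN1 : Algebra.trdeg k N ≤ (d + r : ℕ) := trdeg_le_of_sup M0 F0 hM0 hsup0
  have hsupN : N ⊔ F i0 = ⊤ := by
    rw [eq_top_iff, ← hsup]
    refine sup_le (hMN.trans le_sup_left) (iSup_le fun i => ?_)
    by_cases hi : i = i0
    · subst hi; exact le_sup_right
    · obtain ⟨j, rfl⟩ := Fin.exists_succAbove_eq hi
      exact (hFN j).trans le_sup_left
  obtain ⟨c, hc⟩ : ∃ c : ℕ, Algebra.trdeg k N = c :=
    Cardinal.lt_aleph0.1 (hN1.trans_lt (Cardinal.natCast_lt_aleph0))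
  have hL1 : Algebra.trdeg k L ≤ (c + 1 : ℕ) := by
    have hFF : ∀ i : Fin 1, IsFF k ((fun _ : Fin 1 => F i0) i) := fun _ => inferInstance
    exact trdeg_le_of_sup N (fun _ : Fin 1 => F i0) hc (by rw [iSup_const, hsupN])
  have hcN : c = d + r := by
    rw [hL] at hL1
    rw [hc] at hN1
    have h5 : d + (r + 1) ≤ c + 1 := by exact_mod_cast hL1
    have h6 : c ≤ d + r := by exact_mod_cast hN1
    omega
  subst hcN
  have hNle : N ≤ M ⊔ ⨆ j : {j : Fin (r + 1) // j ≠ i0}, F j := by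
    refine sup_le le_sup_left (iSup_le fun i => le_trans ?_ le_sup_right)
    exact le_iSup (fun j : {j : Fin (r + 1) // j ≠ i0} => F j)
      ⟨i0.succAbove i, Fin.succAbove_ne i0 i⟩
  have hleN : M ⊔ (⨆ j : {j : Fin (r + 1) // j ≠ i0}, F j) ≤ N := by
    refine sup_le hMN (iSup_le fun j => ?_)
    obtain ⟨i, hi⟩ := Fin.exists_succAbove_eq j.2
    have h := hFN i
    rw [hi] at h
    exact h
  intro hp
  have hL' : Algebra.trdeg k L = (d + r + 1 : ℕ) := by rw [hL]; congr 1
  refine neg_one k L N (F i0) (d + r) (fun _ => True) (BF i0) hc hL' hsupN (hfin i0) hdeg δ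
    (fun w hw => hδ w fun z hz => hw z (hleN hz)) ?_
  refine lppsef_mono (fun w hw => ?_) hp
  have hres : ∀ (A : IntermediateField k L) (hA : A ≤ N) (u : Place k A) (e : ℕ), Over w u e →
      ∃ (u' : Place k N) (e' : ℕ), Over w u' e' := by
    intro A hA u e hu
    obtain ⟨e', u', h⟩ := exists_over (K := N) w (by
      obtain ⟨t, -, ht⟩ := u.surj
      refine ⟨inclusion hA t, ?_⟩
      have h1 := hu.2 t
      rw [ht, mul_one] at h1
      change w.ord ((t : A) : L) ≠ 0
      change w.ord ((t : A) : L) = _ at h1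
      rw [h1]
      have := hu.1
      omega)
    exact ⟨u', e', h⟩
  rcases hw with ⟨u, e, hu, -⟩ | ⟨i, p, e, hp, hb⟩
  · obtain ⟨u', e', h⟩ := hres M hMN u e hu
    exact Or.inl ⟨u', e', h, trivial⟩
  · by_cases hi : i = i0
    · subst hi; exact Or.inr ⟨p, e, hp, hb⟩
    · obtain ⟨j, rfl⟩ := Fin.exists_succAbove_eq hi
      obtain ⟨u', e', h⟩ := hres _ (hFN j) p e hp
      exact Or.inl ⟨u', e', h, trivial⟩

end Pool.Agent.TH194.LP
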