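import Pool.Agent.TH194.LP.Unmixed

/-! Pairs with real boundaries on quotients of products of curves: reduction to rational
boundaries. -/

set_option autoImplicit false
set_option linter.overlappingInstances false
set_option linter.unusedSectionVars false

universe u v

open Polynomial FF IntermediateField Pool.Agent.W619.PQ Pool.Agent.W619.PL Pool.Agent.W619.TW
  Pool.Agent.W619.X Pool.Agent.W619.Y Pool.Agent.W603.LV

namespace Pool.Agent.TH194.LP

section

variable {k : Type v} {L : Type u} [Field k] [Field L] [Algebra k L]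

/-- `Δ` is at least a positive multiple of the pull-back of a point `p` of the curve `Q`. -/
def ContainsFibreR {Q K : IntermediateField k L} (h : Q ≤ K) (δ : Place k K → ℝ) : Prop :=
  ∃ p : Place k Q, ∃ ε : ℝ, 0 < ε ∧ ∀ v e, LiesOver h v p e → ε * e ≤ δ v

/-- Condition for abundance of pairs: (a) each `g ≠ 1` in `G` moves at least `2` of the
curves, and each curve is rational, or has quotient `Wide 5` (irrational or with at least `5` branch
points), or is elliptic or such that `Δ` contains a positive multiple of a fibre of the map to its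
quotient, with quotient `Wide 4`; or (b) each `g ≠ 1` moves at least `7` of the curves (`5` if `3`
does not divide the order of `G`, `4` if the order is odd); or (c) there are orbifold divisors `η i`
of positive degree (nonnegative degree if the curve is elliptic or `Δ` contains a positive multiple
of a fibre) on the quotients of the irrational curves which satisfy the condition of Reid-Tai
type. -/
def PairCondR {n : ℕ} (G : Subgroup (L ≃ₐ[k] L)) (F : Fin n → IntermediateField k L)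
    (δ : Place k (fixedField G) → ℝ) : Prop :=
  (Moves 2 G F ∧ ∀ i, Wide 5 (inf_le_left : F i ⊓ fixedField G ≤ F i) ∅ ∨
    ((IsElliptic (F i) ∨ ContainsFibreR (inf_le_right : F i ⊓ fixedField G ≤ fixedField G) δ) ∧
      Wide 4 (inf_le_left : F i ⊓ fixedField G ≤ F i) ∅) ∨
    ∃ t : F i, k⟮t⟯ = ⊤) ∨
  (Moves 7 G F ∨ (Moves 5 G F ∧ ¬ 3 ∣ Nat.card G) ∨ (Moves 4 G F ∧ ¬ 2 ∣ Nat.card G)) ∨
  ∃ η : ∀ i, Place k ↥(F i ⊓ fixedField G) → ℚ,
    (∀ i, OrbGt (inf_le_left : F i ⊓ fixedField G ≤ F i) ∅ (η i) ∨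
      ((IsElliptic (F i) ∨
        ContainsFibreR (inf_le_right : F i ⊓ fixedField G ≤ fixedField G) δ) ∧
        OrbGe (inf_le_left : F i ⊓ fixedField G ≤ F i) ∅ (η i)) ∨
      ∃ t : F i, k⟮t⟯ = ⊤) ∧ RTCond G F (fun _ => ∅) η

end

section

variable {k : Type v} {K : Type u} [Field k] [Field K] [Algebra k K] {n : ℕ}

/-- Sections for a smaller rational boundary. -/
theorem lpsec_of_pair {δ : Place k K → ℝ} {δ' : Place k K → ℚ} (h : ∀ v, (δ' v : ℝ) ≤ δ v)
    {S : Finset K} {m j : ℕ} {ω : (Fin n → Derivation k K K) → K}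
    (hω : IsPairSec k K n δ' S m j ω) : IsLPSec k K n (fun _ => False) δ S m j ω := by
  refine ⟨hω.1, fun v hv _ D hD => ?_, fun v _ hb => hb.elim⟩
  rcases hω.2 v hv D hD with h1 | ⟨s, hs, hs0, h1⟩
  · exact Or.inl h1
  · right
    refine ⟨s, hs, hs0, ?_⟩
    have h2 : ((j : ℚ) * v.ord s - m * δ' v : ℝ) ≤ v.ord (ω D) := by exact_mod_cast h1
    have h3 : (m : ℝ) * δ' v ≤ m * δ v := mul_le_mul_of_nonneg_left (h v) (by positivity)
    have h4 : (((j : ℚ) : ℝ)) = (j : ℝ) := by push_cast; rfl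
    rw [h4] at h2
    linarith

/-- Sections for a larger rational boundary. -/
theorem pairsec_of_lp {δ : Place k K → ℝ} {δ' : Place k K → ℚ}
    (h : ∀ v, IsDivisorial v n → δ v ≤ (δ' v : ℝ))
    {S : Finset K} {m j : ℕ} {ω : (Fin n → Derivation k K K) → K}
    (hω : IsLPSec k K n (fun _ => False) δ S m j ω) : IsPairSec k K n δ' S m j ω := by
  refine ⟨hω.1, fun v hv D hD => ?_⟩
  rcases hω.2.1 v hv not_false D hD with h1 | ⟨s, hs, hs0, h1⟩
  · exact Or.inl h1
  · right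
    refine ⟨s, hs, hs0, ?_⟩
    have h3 : (m : ℝ) * δ v ≤ m * δ' v := mul_le_mul_of_nonneg_left (h v hv) (by positivity)
    have h4 : (j : ℝ) * v.ord s - m * δ' v ≤ v.ord (ω D) := by linarith
    exact_mod_cast h4

theorem lpkod_of_pair {δ : Place k K → ℝ} {δ' : Place k K → ℚ} (h : ∀ v, (δ' v : ℝ) ≤ δ v)
    {a : ℕ} (hk : PairKodGe k K n δ' a) : LPKodGe k K n (fun _ => False) δ a := by
  obtain ⟨m, hm, hk⟩ := hk
  refine ⟨m, hm, fun j hj => ?_⟩
  obtain ⟨ω, h1, h2⟩ := hk j hj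
  exact ⟨ω, h1, fun l => lpsec_of_pair h (h2 l)⟩

theorem lpnum_of_pair {δ : Place k K → ℝ} {δ' : Place k K → ℚ}
    (h : ∀ v, IsDivisorial v n → δ v ≤ (δ' v : ℝ)) {a : ℕ} (hk : PairNumLe k K n δ' a) :
    LPNumLe k K n (fun _ => False) δ a := by
  intro S
  obtain ⟨C, hC⟩ := hk S
  refine ⟨C, fun m N hm hI => hC m N hm ?_⟩
  obtain ⟨ω, h1, h2⟩ := hI
  exact ⟨ω, h1, fun l => pairsec_of_lp h (h2 l)⟩

theorem pairpsef_of_lp {δ : Place k K → ℝ} {δ' : Place k K → ℚ}
    (h : ∀ v, IsDivisorial v n → δ v ≤ (δ' v : ℝ)) (hp : LPPsef k K n (fun _ => False) δ) :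
    PairPsef k K n δ' := by
  obtain ⟨S, hS⟩ := hp
  refine ⟨S, fun N => ?_⟩
  obtain ⟨j, hj, ω, hω, hD⟩ := hS N
  exact ⟨j, hj, ω, pairsec_of_lp h hω, hD⟩

end

section

variable {k : Type v} {L : Type u} [Field k] [Field L] [Algebra k L]

theorem lies_unique {Q K : IntermediateField k L} {h : Q ≤ K} {v : Place k K} {p : Place k Q}
    {e e' : ℕ} (h1 : LiesOver h v p e) (h2 : LiesOver h v p e') : e = e' := by
  obtain ⟨t, -, ht⟩ := p.surj
  have h3 := h1.2 t
  have h4 := h2.2 t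
  rw [ht, mul_one] at h3 h4
  rw [h3] at h4
  exact_mod_cast h4

open scoped Classical in
/-- A rational boundary below a real one, with one fibre. -/
theorem exists_lower_one {Q K : IntermediateField k L} (h : Q ≤ K)
    (δ : Place k K → ℝ) (hδ : ∀ v, 0 ≤ δ v) :
    ∃ f : Place k K → ℚ, (∀ v, 0 ≤ f v) ∧ (∀ v, (f v : ℝ) ≤ δ v) ∧
      (ContainsFibreR h δ → ContainsFibre h f) := by
  by_cases hc : ContainsFibreR h δ
  · obtain ⟨p, ε, hε, hp⟩ := hc
    obtain ⟨q, hq0, hq⟩ := exists_rat_btwn hε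
    have hq0' : (0 : ℚ) < q := by exact_mod_cast hq0
    refine ⟨fun v => if hv : ∃ e, LiesOver h v p e then q * (hv.choose : ℚ) else 0, fun v => ?_,
      fun v => ?_, fun _ => ⟨p, q, hq0', fun v e he => ?_⟩⟩
    · show (0 : ℚ) ≤ if hv : ∃ e, LiesOver h v p e then q * (hv.choose : ℚ) else 0
      split_ifs with hv
      · exact mul_nonneg hq0'.le (by positivity)
      · exact le_rfl
    · show (((if hv : ∃ e, LiesOver h v p e then q * (hv.choose : ℚ) else 0 : ℚ)) : ℝ) ≤ δ v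
      split_ifs with hv
      · push_cast
        refine le_trans ?_ (hp v _ hv.choose_spec)
        exact mul_le_mul_of_nonneg_right hq.le (by positivity)
      · simpa using hδ v
    · show q * (e : ℚ) ≤ if hv : ∃ e, LiesOver h v p e then q * (hv.choose : ℚ) else 0
      have hv : ∃ e, LiesOver h v p e := ⟨e, he⟩
      rw [dif_pos hv, lies_unique hv.choose_spec he]
  · exact ⟨fun _ => 0, fun _ => le_rfl, fun v => by simpa using hδ v, fun h => absurd h hc⟩

/-- A rational boundary below a real one, with the same fibres. -/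
theorem exists_lower {n : ℕ} (G : Subgroup (L ≃ₐ[k] L)) (F : Fin n → IntermediateField k L)
    (δ : Place k (fixedField G) → ℝ) (hδ : ∀ v, 0 ≤ δ v) :
    ∃ δ' : Place k (fixedField G) → ℚ, (∀ v, 0 ≤ δ' v) ∧ (∀ v, (δ' v : ℝ) ≤ δ v) ∧
      ∀ i, ContainsFibreR (inf_le_right : F i ⊓ fixedField G ≤ fixedField G) δ →
        ContainsFibre (inf_le_right : F i ⊓ fixedField G ≤ fixedField G) δ' := by
  have h1 := fun i => exists_lower_one (inf_le_right : F i ⊓ fixedField G ≤ fixedField G) δ hδ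
  choose f hf0 hfle hfc using h1
  have hne : ∀ v, (insert 0 (Finset.univ.image fun i => f i v)).Nonempty := fun v =>
    ⟨0, Finset.mem_insert_self _ _⟩
  refine ⟨fun v => (insert 0 (Finset.univ.image fun i => f i v)).max' (hne v), fun v => ?_,
    fun v => ?_, fun i hi => ?_⟩
  · exact Finset.le_max' _ _ (Finset.mem_insert_self _ _)
  · have h2 : ∀ x ∈ insert 0 (Finset.univ.image fun i => f i v), ((x : ℚ) : ℝ) ≤ δ v := by
      intro x hx
      rcases Finset.mem_insert.1 hx with h3 | h3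
      · rw [h3]; simpa using hδ v
      · obtain ⟨i, -, h4⟩ := Finset.mem_image.1 h3
        rw [← h4]; exact hfle i v
    exact h2 _ (Finset.max'_mem _ (hne v))
  · obtain ⟨p, ε, hε, hp⟩ := hfc i hi
    refine ⟨p, ε, hε, fun v e he => (hp v e he).trans ?_⟩
    exact Finset.le_max' _ _ (Finset.mem_insert_of_mem (Finset.mem_image_of_mem (fun i => f i v)
      (Finset.mem_univ i)))

open scoped Classical in
/-- A rational boundary above a real one. -/
theorem exists_upper {n : ℕ} (K M : IntermediateField k L) (δ : Place k K → ℝ)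
    (hδ : ∀ v, 0 ≤ δ v) (hb : BoundedByR M n δ) :
    ∃ δ' : Place k K → ℚ, (∀ v, 0 ≤ δ' v) ∧ (∀ v, IsDivisorial v n → δ v ≤ (δ' v : ℝ)) ∧
      BoundedBy M n δ' := by
  obtain ⟨T, hT1, hT2⟩ := hb
  by_cases hne : ∃ v : Place k K, IsDivisorial v n
  · obtain ⟨v0, hv0⟩ := hne
    obtain ⟨t0, ht0, -⟩ := hT2 v0 hv0
    have hneT : ∀ v : Place k K, (T.image fun t => (-(v.ord t : ℚ))).Nonempty := fun v =>
      ⟨_, Finset.mem_image_of_mem _ ht0⟩
    let f : Place k K → ℚ := fun v => (T.image fun t => (-(v.ord t : ℚ))).max' (hneT v)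
    have hf : ∀ v, ∃ t ∈ T, f v = -(v.ord t : ℚ) := by
      intro v
      have h1 := Finset.max'_mem _ (hneT v)
      obtain ⟨t, ht, h2⟩ := Finset.mem_image.1 h1
      exact ⟨t, ht, h2.symm⟩
    have hle : ∀ v t, t ∈ T → -(v.ord t : ℚ) ≤ f v := fun v t ht =>
      Finset.le_max' _ _ (Finset.mem_image_of_mem (fun t => (-(v.ord t : ℚ))) ht)
    have hδf : ∀ v, IsDivisorial v n → δ v ≤ (f v : ℝ) := by
      intro v hv
      obtain ⟨t, ht, h1⟩ := hT2 v hv
      have h2 : ((-(v.ord t : ℚ) : ℚ) : ℝ) ≤ (f v : ℝ) := by exact_mod_cast hle v t ht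
      push_cast at h2
      exact h1.trans h2
    refine ⟨fun v => if IsDivisorial v n then f v else 0, fun v => ?_, fun v hv => ?_,
      T, hT1, fun v hv => ?_⟩
    · show 0 ≤ if IsDivisorial v n then f v else 0
      split_ifs with hv
      · have h1 : (0 : ℝ) ≤ (f v : ℝ) := (hδ v).trans (hδf v hv)
        exact_mod_cast h1
      · exact le_rfl
    · show δ v ≤ ((if IsDivisorial v n then f v else 0 : ℚ) : ℝ)
      rw [if_pos hv]
      exact hδf v hv
    · show ∃ t ∈ T, (if IsDivisorial v n then f v else 0) ≤ -(v.ord t : ℚ)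
      rw [if_pos hv]
      obtain ⟨t, ht, h1⟩ := hf v
      exact ⟨t, ht, h1.le⟩
  · refine ⟨fun _ => 0, fun _ => le_rfl, fun v hv => absurd ⟨v, hv⟩ hne, T, hT1,
      fun v hv => absurd ⟨v, hv⟩ hne⟩

end

section

variable {k : Type v} {L : Type u} [Field k] [CharZero k] [IsAlgClosed k] [Field L] [Algebra k L]

/-- Pairs with real boundaries. -/
theorem pairU (n : ℕ) (hn : Algebra.trdeg k L = n)
    (F : Fin n → IntermediateField k L) (hF : ∀ i, IsFF k (F i)) (hsup : ⨆ i, F i = ⊤)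
    (G : Subgroup (L ≃ₐ[k] L)) [Finite G] (hst : ∀ i, ∀ g ∈ G, ∀ z ∈ F i, g z ∈ F i)
    (δ : Place k (fixedField G) → ℝ) (hδ : ∀ v, 0 ≤ δ v) (P : Set (Fin n))
    (hP : ∀ i ∈ P, (¬ ∃ t : F i, k⟮t⟯ = ⊤) ∧ (¬ IsElliptic (F i) ∨
      ContainsFibreR (inf_le_right : F i ⊓ fixedField G ≤ fixedField G) δ))
    (hQ : ∀ i ∉ P, (∃ t : F i, k⟮t⟯ = ⊤) ∨ IsElliptic (F i))
    (hδP : BoundedByR (⨆ i : P, F i) n δ) (h : PairCondR G F δ)
    (hpe : LPPsef k (fixedField G) n (fun _ => False) δ) :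
    (∀ i, ¬ ∃ t : F i, k⟮t⟯ = ⊤) ∧
      (∀ κ, LPKodGe k (fixedField G) n (fun _ => False) δ κ ↔ κ ≤ P.ncard) ∧
      ∀ ν, LPNumLe k (fixedField G) n (fun _ => False) δ ν ↔ P.ncard ≤ ν := by
  classical
  -- make `δ` zero at the places which are not divisorial
  obtain ⟨δ1, h10, h11, h12⟩ := exists_lower G F δ hδ
  obtain ⟨δ2, h20, h21, h22⟩ := exists_upper (fixedField G) (⨆ i : P, F i) δ hδ hδP
  let δ3 : Place k (fixedField G) → ℚ := fun v => max (δ1 v) (δ2 v)
  have h31 : ∀ v, IsDivisorial v n → δ3 v = δ2 v := by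
    intro v hv
    refine max_eq_right ?_
    have : (δ1 v : ℝ) ≤ (δ2 v : ℝ) := (h11 v).trans (h21 v hv)
    exact_mod_cast this
  have h30 : ∀ v, 0 ≤ δ3 v := fun v => (h10 v).trans (le_max_left _ _)
  have h3c : ∀ i, ContainsFibreR (inf_le_right : F i ⊓ fixedField G ≤ fixedField G) δ →
      ContainsFibre (inf_le_right : F i ⊓ fixedField G ≤ fixedField G) δ3 := by
    intro i hi
    obtain ⟨p, ε, hε, hp⟩ := h12 i hi
    exact ⟨p, ε, hε, fun v e he => (hp v e he).trans (le_max_left _ _)⟩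
  have h3b : BoundedBy (⨆ i : P, F i) n δ3 := by
    obtain ⟨T, hT1, hT2⟩ := h22
    exact ⟨T, hT1, fun v hv => by rw [h31 v hv]; exact hT2 v hv⟩
  have h3le : ∀ v, IsDivisorial v n → δ v ≤ (δ3 v : ℝ) := fun v hv => by
    rw [h31 v hv]; exact h21 v hv
  have cond : ∀ δ' : Place k (fixedField G) → ℚ,
      (∀ i, ContainsFibreR (inf_le_right : F i ⊓ fixedField G ≤ fixedField G) δ →
        ContainsFibre (inf_le_right : F i ⊓ fixedField G ≤ fixedField G) δ') →
      PairCond G F δ' := by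
    intro δ' hc
    rcases h with ⟨h1, h2⟩ | h | ⟨η, h1, h2⟩
    · refine Or.inl ⟨h1, fun i => ?_⟩
      rcases h2 i with h3 | ⟨h3, h4⟩ | h3
      · exact Or.inl h3
      · exact Or.inr (Or.inl ⟨h3.imp id (hc i), h4⟩)
      · exact Or.inr (Or.inr h3)
    · exact Or.inr (Or.inl h)
    · refine Or.inr (Or.inr ⟨η, fun i => ?_, h2⟩)
      rcases h1 i with h3 | ⟨h3, h4⟩ | h3
      · exact Or.inl h3
      · exact Or.inr (Or.inl ⟨h3.imp id (hc i), h4⟩)
      · exact Or.inr (Or.inr h3)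
  have hirr : ∀ i, ¬ ∃ t : F i, k⟮t⟯ = ⊤ := by
    intro i hi
    exact (pairC n hn F hF (Pool.Agent.W619.X.alg_of_sup F hsup) G hst δ3 h30 P
      (fun i hi => ⟨(hP i hi).1, (hP i hi).2.imp id (h3c i)⟩) hQ (cond δ3 h3c)).2 hsup ⟨i, hi⟩ h3b
      (pairpsef_of_lp h3le hpe)
  refine ⟨hirr, exact_of ?_ ?_⟩
  · exact lpkod_of_pair h11 ((pairC n hn F hF (Pool.Agent.W619.X.alg_of_sup F hsup) G hst δ1 h10 P
      (fun i hi => ⟨(hP i hi).1, (hP i hi).2.imp id (h12 i)⟩) hQ (cond δ1 h12)).1 hirr).1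
  · exact lpnum_of_pair h3le (((pairC n hn F hF (Pool.Agent.W619.X.alg_of_sup F hsup) G hst δ3 h30 P
      (fun i hi => ⟨(hP i hi).1, (hP i hi).2.imp id (h3c i)⟩) hQ (cond δ3 h3c)).1 hirr).2 hsup h3b)

end

end Pool.Agent.TH194.LP
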