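import Pool.Agent.TH194.LP.Defs
import Pool.Agent.W73.PG.PULL
import Pool.Agent.W636.PG.Trans

/-! Pull-back of sections of `m (K_X + D + Δ) + j A` under finite extensions. -/

set_option autoImplicit false
set_option linter.overlappingInstances false
set_option linter.unusedSectionVars false

universe u v

open FF IntermediateField Pool.Agent.W619.PQ Pool.Agent.W619.PL Pool.Agent.W619.TW
  Pool.Agent.W603.LV Pool.Agent.W619.Y

namespace Pool.Agent.TH194.LP

open Pool.Agent.W73.PG.PULL (sum_app exists_over' form_eq)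

/-- Sections with a general local condition. -/
def GSec (k : Type v) (K : Type u) [Field k] [Field K] [Algebra k K] (n m : ℕ)
    (Bd : Place k K → Prop) (C : Place k K → K → Prop)
    (ω : (Fin n → Derivation k K K) → K) : Prop :=
  IsPluriForm k K n m ω ∧
  (∀ v : Place k K, IsDivisorial v n → ¬ Bd v → ∀ D : Fin n → Derivation k K K,
    (∀ l, ∀ f, v.Reg f → v.Reg (D l f)) → C v (ω D)) ∧
  (∀ v : Place k K, IsDivisorial v n → Bd v → ∀ D : Fin n → Derivation k K K,
    (∀ l, ∀ f, v.Reg (D l f / f)) → C v (ω D))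

theorem pull (h : S_FRAME.{u, v}) (h' : S_DIVI.{u, v}) (k : Type v) (K L : Type u) [Field k]
    [CharZero k] [Field K] [Field L]
    [Algebra k K] [Algebra k L] [Algebra K L] [IsScalarTower k K L] [FiniteDimensional K L]
    (n : ℕ) (htr : Algebra.trdeg k K = n)
    (hfin : ∀ y : Fin n → K, IsTranscendenceBasis k y →
      FiniteDimensional (IntermediateField.adjoin k (Set.range y)) K)
    (Bd : Place k K → Prop) (C : Place k K → K → Prop) (C' : Place k L → L → Prop)
    (dom_up : ∀ (w : Place k L) (v : Place k K) (e : ℕ), Over w v e → ∀ (X : L) (g : K),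
      Ge w 0 X → C v g → C' w (X * algebraMap K L g)) (m : ℕ) (y : Fin n → K)
    (E : Fin n → Derivation k K K) (hy : IsTranscendenceBasis k y)
    (hE : ∀ i j, E i (y j) = if i = j then 1 else 0)
    (ω : (Fin n → Derivation k K K) → K) (hω : GSec k K n m Bd C ω) :
    GSec k L n m (BdUp Bd) C'
        (fun D => (Matrix.of fun a b => D a (algebraMap K L (y b))).det ^ m *
          algebraMap K L (ω E)) := by
  classical
  refine ⟨?_, ?_, ?_⟩
  · intro A D
    have e : (Matrix.of fun a b => (∑ j, A a j • D j) (algebraMap K L (y b))) =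
        A * Matrix.of fun a b => D a (algebraMap K L (y b)) := by
      ext a b
      rw [Matrix.of_apply, Matrix.mul_apply, sum_app]
      rfl
    show (Matrix.of fun a b => (∑ j, A a j • D j) (algebraMap K L (y b))).det ^ m * _ = _
    rw [e, Matrix.det_mul, mul_pow, mul_assoc]
  · intro w hw hB D hD
    obtain ⟨e, v, hwv⟩ := exists_over' (K := K) w
    have hv := h' k K L n v w e hwv hw
    obtain ⟨y', E', i0, hy', hE', ht, hyr, hpres⟩ := h k K n htr hfin v hv
    have hnB : ¬ Bd v := fun hb => hB ⟨v, e, hwv, hb⟩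
    have hd := hω.2.1 v hv hnB E' (fun l f hf => hpres l f hf)
    show C' w ((Matrix.of fun a b => D a (algebraMap K L (y b))).det ^ m *
      algebraMap K L (ω E))
    rw [form_eq y y' hy hy' E E' hE hE' ω hω.1 D]
    refine dom_up w v e hwv _ _ ?_ hd
    have h1 : Ge w 0 (Matrix.of fun a c => D a (algebraMap K L (y' c))).det :=
      ge_det w _ (fun a c => hD a _ (hwv.reg.2 (hyr c)))
    simpa using h1.pow m
  · intro w hw hB D hD
    obtain ⟨v, e, hwv, hBv⟩ := hB
    have hv := h' k K L n v w e hwv hw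
    obtain ⟨y', E', i0, hy', hE', ht, hyr, hpres⟩ := h k K n htr hfin v hv
    have ht0 : y' i0 ≠ 0 := by
      intro h0
      rw [h0, v.ord_zero] at ht
      exact zero_ne_one ht
    have hT0 : algebraMap K L (y' i0) ≠ 0 := by simpa using ht0
    -- the logarithmic frame
    let c : Fin n → K := fun i => if i = i0 then y' i0 else 1
    have hc : ∀ i, v.Reg (c i) := by
      intro i
      by_cases hi : i = i0
      · simp only [c, hi, if_true]; exact hyr i0
      · simp only [c, hi, if_false]; exact v.reg_one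
    have hdet : (Matrix.diagonal c).det = y' i0 := by
      rw [Matrix.det_diagonal]
      simp only [c, Finset.prod_ite_eq', Finset.mem_univ, if_true]
    obtain ⟨E'', hE''⟩ : ∃ E'' : Fin n → Derivation k K K, E'' = fun i => c i • E' i := ⟨_, rfl⟩
    have hEa : ∀ i f, E'' i f = c i * E' i f := by
      intro i f
      rw [hE'']; rfl
    have hω2 : ω E'' = (y' i0) ^ m * ω E' := by
      have h1 := hω.1 (Matrix.diagonal c) E'
      have h2 : (fun i => ∑ j, (Matrix.diagonal c) i j • E' j) = E'' := by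
        funext i
        rw [hE'', Finset.sum_eq_single i]
        · rw [Matrix.diagonal_apply_eq]
        · intro b _ hb
          rw [Matrix.diagonal_apply_ne _ (Ne.symm hb), zero_smul]
        · intro hi
          exact absurd (Finset.mem_univ i) hi
      rw [h2, hdet] at h1
      exact h1
    have hlog : ∀ l, ∀ f, v.Reg (E'' l f / f) := by
      intro l f
      refine log_of_pres v (E'' l) (fun g hg => ?_) ht0 ht ?_ f
      · rw [hEa]
        exact v.reg_mul (hc l) (hpres l g hg)
      · rw [hEa, hE']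
        by_cases hl : l = i0
        · simp only [c, hl, if_true, mul_one]
          rw [div_self ht0]
          exact v.reg_one
        · simp only [hl, if_false, mul_zero, zero_div]
          exact v.reg_zero
    have hd := hω.2.2 v hv hBv E'' hlog
    show C' w ((Matrix.of fun a b => D a (algebraMap K L (y b))).det ^ m *
      algebraMap K L (ω E))
    rw [form_eq y y' hy hy' E E' hE hE' ω hω.1 D]
    let M2 : Matrix (Fin n) (Fin n) L := Matrix.of fun a b =>
      if b = i0 then D a (algebraMap K L (y' i0)) / algebraMap K L (y' i0)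
      else D a (algebraMap K L (y' b))
    have hM : (Matrix.of fun a b => D a (algebraMap K L (y' b))) =
        M2 * (Matrix.diagonal fun i => algebraMap K L (c i)) := by
      ext a b
      rw [Matrix.mul_diagonal]
      simp only [Matrix.of_apply, M2, c]
      by_cases hb : b = i0
      · simp only [hb, if_true]
        rw [div_mul_cancel₀ _ hT0]
      · simp only [hb, if_false, map_one, mul_one]
    have hdet2 : (Matrix.diagonal fun i => algebraMap K L (c i)).det =
        algebraMap K L (y' i0) := by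
      rw [Matrix.det_diagonal, ← map_prod, ← Matrix.det_diagonal, hdet]
    have hfin2 : (Matrix.of fun a b => D a (algebraMap K L (y' b))).det ^ m *
        algebraMap K L (ω E') = M2.det ^ m * algebraMap K L (ω E'') := by
      rw [hM, Matrix.det_mul, hdet2, hω2, map_mul, map_pow, mul_pow, mul_assoc]
    rw [hfin2]
    refine dom_up w v e hwv _ _ ?_ hd
    have h1 : Ge w 0 M2.det := by
      refine ge_det w _ (fun a b => ?_)
      by_cases hb : b = i0
      · simp only [M2, Matrix.of_apply, hb, if_true]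
        exact hD a _
      · simp only [M2, Matrix.of_apply, hb, if_false]
        by_cases hz : algebraMap K L (y' b) = 0
        · rw [hz, map_zero]; exact Ge.zero
        · have h2 : Ge w 0 (D a (algebraMap K L (y' b)) / algebraMap K L (y' b)) := hD a _
          have h3 : Ge w 0 (algebraMap K L (y' b)) := hwv.reg.2 (hyr b)
          have h4 := h2.mul h3
          rw [div_mul_cancel₀ _ hz] at h4
          simpa using h4
    simpa using h1.pow m

theorem lp_up {k : Type v} {K L : Type u} [Field k] [Field K] [Field L] [Algebra k K]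
    [Algebra k L] [Algebra K L] [IsScalarTower k K L] [DecidableEq L]
    {δ : Place k K → ℝ} {δ' : Place k L → ℝ}
    (hδ : ∀ (w : Place k L) (v : Place k K) (e : ℕ), Over w v e → (e : ℝ) * δ v ≤ δ' w)
    (S : Finset K) (m j : ℕ) (w : Place k L) (v : Place k K) (e : ℕ) (hwv : Over w v e)
    (X : L) (g : K) (hX : Ge w 0 X)
    (hg : g = 0 ∨ ∃ s ∈ S, s ≠ 0 ∧ (j : ℝ) * v.ord s - m * δ v ≤ v.ord g) :
    X * algebraMap K L g = 0 ∨ ∃ s ∈ S.image (algebraMap K L), s ≠ 0 ∧
      (j : ℝ) * w.ord s - m * δ' w ≤ w.ord (X * algebraMap K L g) := by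
  rcases hg with hd | ⟨s, hs, hs0, hle⟩
  · left; rw [hd, map_zero, mul_zero]
  by_cases hX0 : X = 0
  · left; rw [hX0, zero_mul]
  by_cases hg0 : g = 0
  · left; rw [hg0, map_zero, mul_zero]
  right
  refine ⟨algebraMap K L s, Finset.mem_image_of_mem _ hs, by simpa using hs0, ?_⟩
  rw [w.ord_mul hX0 (by simpa using hg0), hwv.2, hwv.2]
  have h1 : 0 ≤ w.ord X := hX.resolve_left hX0
  have h1' : (0 : ℝ) ≤ (w.ord X : ℤ) := by exact_mod_cast h1
  have h2 : (e : ℝ) * ((j : ℝ) * v.ord s - m * δ v) ≤ e * v.ord g :=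
    mul_le_mul_of_nonneg_left hle (by positivity)
  have h3 : (m : ℝ) * (e * δ v) ≤ m * δ' w :=
    mul_le_mul_of_nonneg_left (hδ w v e hwv) (by positivity)
  push_cast
  linarith

/-- Passage to a finite extension. -/
theorem trans (h : S_FRAME.{u, v}) (h' : S_DIVI.{u, v}) (k : Type v) (K L : Type u) [Field k]
    [CharZero k] [Field K] [Field L]
    [Algebra k K] [Algebra k L] [Algebra K L] [IsScalarTower k K L] [FiniteDimensional K L]
    (n : ℕ) (hn : Algebra.trdeg k K = n)
    (hFD : ∀ y : Fin n → K, IsTranscendenceBasis k y →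
      FiniteDimensional (IntermediateField.adjoin k (Set.range y)) K)
    (Bd : Place k K → Prop) (δ : Place k K → ℝ) (δ' : Place k L → ℝ)
    (hδ : ∀ (w : Place k L) (v : Place k K) (e : ℕ), Over w v e → (e : ℝ) * δ v ≤ δ' w) :
    (LPPsef k K n Bd δ → LPPsef k L n (BdUp Bd) δ') ∧
    ∀ a, LPNumLe k L n (BdUp Bd) δ' a → LPNumLe k K n Bd δ a := by
  classical
  obtain ⟨y, hy⟩ := Pool.Agent.W636.PG.exists_basis k K n hn
  obtain ⟨E, hE⟩ := Pool.Agent.W636.PG.exists_duals k K n y hy
  have hyL : IsTranscendenceBasis k (algebraMap K L ∘ y) := hy.algebraMap_comp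
  obtain ⟨E', hE'⟩ := Pool.Agent.W636.PG.exists_duals k L n _ hyL
  let Φ : ℕ → ((Fin n → Derivation k K K) → K) → (Fin n → Derivation k L L) → L :=
    fun m ω D => (Matrix.of fun a b => D a (algebraMap K L (y b))).det ^ m *
      algebraMap K L (ω E)
  have hS : ∀ S : Finset K, ∃ S' : Finset L, ∀ m j ω, IsLPSec k K n Bd δ S m j ω →
      IsLPSec k L n (BdUp Bd) δ' S' m j (Φ m ω) := by
    intro S
    refine ⟨S.image (algebraMap K L), fun m j ω hω => ?_⟩
    exact pull h h' k K L n hn hFD Bd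
      (fun v g => g = 0 ∨ ∃ s ∈ S, s ≠ 0 ∧ (j : ℝ) * v.ord s - m * δ v ≤ v.ord g)
      (fun w g => g = 0 ∨ ∃ s ∈ S.image (algebraMap K L), s ≠ 0 ∧
        (j : ℝ) * w.ord s - m * δ' w ≤ w.ord g)
      (fun w v e hwv X g hX hg => lp_up hδ S m j w v e hwv X g hX hg) m y E hy hE ω hω
  have hdet : (Matrix.of fun a b => E' a (algebraMap K L (y b))).det = 1 := by
    have h1 : (Matrix.of fun a b => E' a (algebraMap K L (y b))) = 1 := by
      ext a b
      rw [Matrix.of_apply, Matrix.one_apply]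
      exact hE' a b
    rw [h1, Matrix.det_one]
  have hΦ : ∀ m ω, Φ m ω E' = algebraMap K L (ω E) := by
    intro m ω
    change (Matrix.of fun a b => E' a (algebraMap K L (y b))).det ^ m *
      algebraMap K L (ω E) = _
    rw [hdet, one_pow, one_mul]
  have hind : ∀ (S : Finset K) (S' : Finset L) (m N : ℕ),
      (∀ ω, IsLPSec k K n Bd δ S m 1 ω → IsLPSec k L n (BdUp Bd) δ' S' m 1 (Φ m ω)) →
      HasIndep k K n N (IsLPSec k K n Bd δ S m 1) →
      HasIndep k L n N (IsLPSec k L n (BdUp Bd) δ' S' m 1) := by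
    intro S S' m N hSS ⟨ω, hli, hω⟩
    refine ⟨fun l => Φ m (ω l), ?_, fun l => hSS _ (hω l)⟩
    rw [Fintype.linearIndependent_iff] at hli ⊢
    intro c hc
    apply hli
    have h1 : ∑ l, c l • ω l E = 0 := by
      have h2 := congrFun hc E'
      rw [Finset.sum_apply] at h2
      simp only [Pi.smul_apply, Pi.zero_apply, hΦ] at h2
      have h3 : algebraMap K L (∑ l, c l • ω l E) = 0 := by
        rw [← h2, map_sum]
        refine Finset.sum_congr rfl fun l _ => ?_
        rw [Algebra.smul_def, Algebra.smul_def, map_mul, ← IsScalarTower.algebraMap_apply k K L]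
      exact (map_eq_zero _).1 h3
    funext D
    rw [Finset.sum_apply]
    simp only [Pi.smul_apply, Pi.zero_apply]
    have h4 : ∀ l, c l • ω l D = (Matrix.of fun i j => D i (y j)).det ^ m * (c l • ω l E) := by
      intro l
      rw [Pool.Agent.W636.PG.form_eq k K n m y hy E hE (ω l) (hω l).1 D, mul_smul_comm]
    rw [Finset.sum_congr rfl fun l _ => h4 l, ← Finset.mul_sum, h1, mul_zero]
  refine ⟨?_, ?_⟩
  · rintro ⟨S, hSs⟩
    obtain ⟨S', hS'⟩ := hS S
    refine ⟨S', fun N => ?_⟩
    obtain ⟨j, hj, ω, hω, D, hD⟩ := hSs N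
    refine ⟨j, hj, Φ (j * N) ω, hS' _ _ _ hω, E', ?_⟩
    rw [hΦ]
    intro h0
    apply hD
    rw [Pool.Agent.W636.PG.form_eq k K n (j * N) y hy E hE ω hω.1 D, (map_eq_zero _).1 h0,
      mul_zero]
  · intro g hle S
    obtain ⟨S', hS'⟩ := hS S
    obtain ⟨C, hC⟩ := hle S'
    exact ⟨C, fun m N hm hI => hC m N hm (hind S S' m N (fun ω hω => hS' _ _ _ hω) hI)⟩

section

variable {k : Type v} {K : Type u} [Field k] [Field K] [Algebra k K] {n : ℕ}

/-- Logarithmic vector fields are regular. -/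
theorem reg_of_log (v : Place k K) (D : Derivation k K K) (hD : ∀ f, v.Reg (D f / f)) (f : K)
    (hf : v.Reg f) : v.Reg (D f) := by
  by_cases hf0 : f = 0
  · subst hf0
    rw [map_zero]
    exact Or.inl rfl
  have h2 : D f = D f / f * f := by field_simp
  rw [h2]
  exact v.reg_mul (hD f) hf

/-- Enlarging the boundary. -/
theorem gsec_mono {Bd Bd' : Place k K → Prop} (h : ∀ v, Bd v → Bd' v) {m : ℕ}
    {C : Place k K → K → Prop} {ω : (Fin n → Derivation k K K) → K}
    (hω : GSec k K n m Bd C ω) : GSec k K n m Bd' C ω := by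
  refine ⟨hω.1, fun v hv hb D hD => hω.2.1 v hv (fun h1 => hb (h v h1)) D hD,
    fun v hv hb D hD => ?_⟩
  by_cases h1 : Bd v
  · exact hω.2.2 v hv h1 D hD
  · exact hω.2.1 v hv h1 D fun l f hf => reg_of_log v (D l) (hD l) f hf

theorem lpsec_mono {Bd Bd' : Place k K → Prop} (h : ∀ v, Bd v → Bd' v) {δ : Place k K → ℝ}
    {S : Finset K} {m j : ℕ} {ω : (Fin n → Derivation k K K) → K}
    (hω : IsLPSec k K n Bd δ S m j ω) : IsLPSec k K n Bd' δ S m j ω :=
  gsec_mono (C := fun v g => g = 0 ∨ ∃ s ∈ S, s ≠ 0 ∧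
    (j : ℝ) * v.ord s - m * δ v ≤ v.ord g) h hω

theorem lppsef_mono {Bd Bd' : Place k K → Prop} (h : ∀ v, Bd v → Bd' v) {δ : Place k K → ℝ}
    (hp : LPPsef k K n Bd δ) : LPPsef k K n Bd' δ := by
  obtain ⟨S, hS⟩ := hp
  refine ⟨S, fun N => ?_⟩
  obtain ⟨j, hj, ω, hω, hD⟩ := hS N
  exact ⟨j, hj, ω, lpsec_mono h hω, hD⟩

theorem lpnumle_mono {Bd Bd' : Place k K → Prop} (h : ∀ v, Bd v → Bd' v) {δ : Place k K → ℝ}
    {a : ℕ} (hp : LPNumLe k K n Bd' δ a) : LPNumLe k K n Bd δ a := by
  intro S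
  obtain ⟨C, hC⟩ := hp S
  refine ⟨C, fun m N hm hI => hC m N hm ?_⟩
  obtain ⟨ω, h1, h2⟩ := hI
  exact ⟨ω, h1, fun l => lpsec_mono h (h2 l)⟩

theorem lppsef_congr {Bd : Place k K → Prop} {δ δ' : Place k K → ℝ}
    (h : ∀ v, IsDivisorial v n → δ v = δ' v) (hp : LPPsef k K n Bd δ) : LPPsef k K n Bd δ' := by
  obtain ⟨S, hS⟩ := hp
  refine ⟨S, fun N => ?_⟩
  obtain ⟨j, hj, ω, hω, hD⟩ := hS N
  exact ⟨j, hj, ω, ⟨hω.1, fun v hv hb D hD => by rw [← h v hv]; exact hω.2.1 v hv hb D hD,
    fun v hv hb D hD => by rw [← h v hv]; exact hω.2.2 v hv hb D hD⟩, hD⟩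

theorem lpnumle_congr {Bd : Place k K → Prop} {δ δ' : Place k K → ℝ}
    (h : ∀ v, IsDivisorial v n → δ v = δ' v) {a : ℕ} (hp : LPNumLe k K n Bd δ a) :
    LPNumLe k K n Bd δ' a := by
  intro S
  obtain ⟨C, hC⟩ := hp S
  refine ⟨C, fun m N hm hI => hC m N hm ?_⟩
  obtain ⟨ω, h1, h2⟩ := hI
  exact ⟨ω, h1, fun l => ⟨(h2 l).1,
    fun v hv hb D hD => by rw [h v hv]; exact (h2 l).2.1 v hv hb D hD,
    fun v hv hb D hD => by rw [h v hv]; exact (h2 l).2.2 v hv hb D hD⟩⟩

/-- Sections of `m (K + D)` are sections of `m (K + D + Δ)`. -/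
theorem lpsec_of {Bd : Place k K → Prop} {δ : Place k K → ℝ} (hδ : ∀ v, 0 ≤ δ v) {m : ℕ}
    {ω : (Fin n → Derivation k K K) → K} (h : IsSec k K n Bd {1} m 0 ω) :
    IsLPSec k K n Bd δ {1} m 0 ω := by
  have key : ∀ (v : Place k K) (D : Fin n → Derivation k K K), Dom v {1} 0 (ω D) →
      ω D = 0 ∨ ∃ s ∈ ({1} : Finset K), s ≠ 0 ∧
        ((0 : ℕ) : ℝ) * v.ord s - m * δ v ≤ v.ord (ω D) := by
    rintro v D (h3 | ⟨s, hs, hs0, h3⟩)
    · exact Or.inl h3
    · right
      refine ⟨s, hs, hs0, ?_⟩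
      have h4 : (0 : ℤ) ≤ v.ord (ω D) := by simpa using h3
      have h5 : (0 : ℝ) ≤ v.ord (ω D) := by exact_mod_cast h4
      have h6 : (0 : ℝ) ≤ m * δ v := mul_nonneg (by positivity) (hδ v)
      simp only [Nat.cast_zero, zero_mul]
      linarith
  exact ⟨h.1, fun v hv hb D hD => key v D (h.2.1 v hv hb D hD),
    fun v hv hb D hD => key v D (h.2.2 v hv hb D hD)⟩

theorem lpeff_of {Bd : Place k K → Prop} {δ : Place k K → ℝ} (hδ : ∀ v, 0 ≤ δ v)
    (hp : IsEff k K n Bd) : LPEff k K n Bd δ := by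
  obtain ⟨m, hm, ω, hω, hD⟩ := hp
  exact ⟨m, hm, ω, lpsec_of hδ hω, hD⟩

theorem lpkod_of {Bd : Place k K → Prop} {δ : Place k K → ℝ} (hδ : ∀ v, 0 ≤ δ v) {a : ℕ}
    (hp : KodGe k K n Bd a) : LPKodGe k K n Bd δ a := by
  obtain ⟨m, hm, h⟩ := hp
  refine ⟨m, hm, fun j hj => ?_⟩
  obtain ⟨ω, h1, h2⟩ := h j hj
  exact ⟨ω, h1, fun l => lpsec_of hδ (h2 l)⟩

end

end Pool.Agent.TH194.LP
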