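import Pool.Agent.TH194.LP.Main
import Pool.Agent.TH194.LP.Exact
import Pool.Agent.W619.X.Fin

/-! Log canonical pairs on quotients of products of curves by groups preserving the factors. -/

set_option autoImplicit false
set_option linter.overlappingInstances false
set_option linter.unusedSectionVars false

universe u v

open Polynomial FF IntermediateField Pool.Agent.W619.PQ Pool.Agent.W619.PL Pool.Agent.W619.TW
  Pool.Agent.W619.X Pool.Agent.W619.Y Pool.Agent.W603.LV

namespace Pool.Agent.TH194.LP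

section

variable {k : Type v} {L : Type u} [Field k] [CharZero k] [IsAlgClosed k] [Field L] [Algebra k L]

/-- Passage to the product. -/
theorem lpU_down (n : ℕ) (hn : Algebra.trdeg k L = n)
    (F : Fin n → IntermediateField k L) [hF : ∀ i, IsFF k (F i)] (hsup : ⨆ i, F i = ⊤)
    (G : Subgroup (L ≃ₐ[k] L)) [Finite G]
    (B : ∀ i, Set (Place k ↥(F i ⊓ fixedField G))) (δ : Place k (fixedField G) → ℝ)
    (hp : LPPsef k (fixedField G) n (QBd F G B) δ) :
    LPPsef k L n (BdMany (⊥ : IntermediateField k L) F (fun _ => False)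
      fun i => BFof (F i) G (B i)) (fun w => max 0 (upR n δ w)) := by
  classical
  have hfinL : FiniteDimensional (fixedField G) L := by
    have hGal : IsGaloisGroup G (fixedField G) L := isGaloisGroup_fixed G
    exact IsGaloisGroup.finiteDimensional G (fixedField G) L
  have hess : Algebra.EssFiniteType k L := by
    have h1 : Algebra.EssFiniteType k (⊤ : IntermediateField k L) := by
      rw [← hsup]
      exact essFiniteType_iff.2 (fg_iSup fun j => essFiniteType_iff.1 (IsFF.ess))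
    exact (Algebra.EssFiniteType.iff_of_algEquiv (topEquiv (F := k) (E := L))).1 h1
  have hnK : Algebra.trdeg k (fixedField G) = n := by
    rw [← hn, ← trdeg_add_eq k (fixedField G) (A := L),
      trdeg_eq_zero (R := fixedField G) (A := L), add_zero]
  let δ0 : Place k (fixedField G) → ℝ := fun v => if IsDivisorial v n then δ v else 0
  have hδ0 : ∀ v, IsDivisorial v n → δ v = δ0 v := fun v hv => by
    simp only [δ0]; rw [if_pos hv]
  obtain ⟨h1, -⟩ := trans pFRAME pDIVI k (fixedField G) L n hnK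
    (fun y hy => fin_over_adjoin n (fixedField G) y hy) (QBd F G B) δ0
    (fun w => max 0 (upR n δ w)) (fun w v e hw => by
      by_cases hv : IsDivisorial v n
      · rw [← hδ0 v hv, ← upR_eq n δ hw hv]
        exact le_max_right _ _
      · simp only [δ0]
        rw [if_neg hv, mul_zero]
        exact le_max_left _ _)
  refine lppsef_mono ?_ (h1 (lppsef_congr hδ0 hp))
  rintro w ⟨v, e, hwv, i, p, hp, e', hvp⟩
  have hwp : Over w p (e * e') := by
    refine ⟨Nat.mul_pos hwv.1 hvp.1, fun f => ?_⟩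
    have h2 := hwv.2 (inclusion (inf_le_right : F i ⊓ fixedField G ≤ fixedField G) f)
    rw [hvp.2 f] at h2
    push_cast
    rw [mul_assoc]
    exact h2
  obtain ⟨q, b, c, hq1, hq2⟩ := pREST k L (F i) (F i ⊓ fixedField G) inf_le_left w p _ hwp
  exact Or.inr ⟨i, q, b, hq1, p, hp, c, hq2⟩

/-- A negative curve. -/
theorem lpU_neg (n : ℕ) (hn : Algebra.trdeg k L = n)
    (F : Fin n → IntermediateField k L) [hF : ∀ i, IsFF k (F i)] (hsup : ⨆ i, F i = ⊤)
    (G : Subgroup (L ≃ₐ[k] L)) [Finite G] (hst : ∀ i, ∀ g ∈ G, ∀ z ∈ F i, g z ∈ F i)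
    (B : ∀ i, Set (Place k ↥(F i ⊓ fixedField G))) (hB : ∀ i, (B i).Finite)
    (δ : Place k (fixedField G) → ℝ)
    (P : Set (Fin n)) (hP : ∀ i ∈ P, ¬ IsNegative (inf_le_left : F i ⊓ fixedField G ≤ F i) (B i))
    (hδP : BoundedByR (⨆ i : P, F i) n δ)
    (hneg : ∃ i, IsNegative (inf_le_left : F i ⊓ fixedField G ≤ F i) (B i)) :
    ¬ LPPsef k (fixedField G) n (QBd F G B) δ := by
  classical
  obtain ⟨T, hT1, hT2⟩ := hδP
  have hb := upR_bound n δ T hT2
  have hdeg := fun i => deg_iff (F i) G (hst i) (B i) (hB i)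
  obtain ⟨i0, hi0⟩ := hneg
  intro hp
  have hp' := lpU_down n hn F hsup G B δ hp
  have hn' : Algebra.trdeg k L = (0 + n : ℕ) := by rw [hn, zero_add]
  have hbot : Algebra.trdeg k (⊥ : IntermediateField k L) = ((0 : ℕ) : Cardinal) := by
    rw [Nat.cast_zero]
    exact trdeg_eq_zero (R := k) (A := (⊥ : IntermediateField k L))
  have h0 : (0 + n : ℕ) = n := zero_add n
  refine neg_many k L 0 n ⊥ F (fun _ => False) (fun i => BFof (F i) G (B i)) hbot hn'
    (by rw [bot_sup_eq, hsup])
    (fun i => (hdeg i).1) i0 ((hdeg i0).2.1.1 hi0) (fun w => max 0 (upR n δ w))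
    (fun w hw => ?_) ?_
  · refine max_le le_rfl ?_
    rcases hb w with h3 | ⟨t, ht, h3⟩
    · exact h3
    · have hle : (⨆ i : P, F i) ≤ (⊥ : IntermediateField k L) ⊔
          ⨆ j : {j : Fin n // j ≠ i0}, F j := by
        refine le_trans (iSup_le fun i => ?_) le_sup_right
        exact le_iSup (fun j : {j : Fin n // j ≠ i0} => F j)
          ⟨i, fun h4 => hP i i.2 (h4 ▸ hi0)⟩
      have h5 := hw (t : L) (hle (hT1 t ht).2)
      rw [h5] at h3
      simpa using h3
  · have key : ∀ r : ℕ, r = n → LPPsef k L r (BdMany (⊥ : IntermediateField k L) F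
        (fun _ => False) fun i => BFof (F i) G (B i)) (fun w => max 0 (upR n δ w)) := by
      rintro r rfl
      exact hp'
    exact key _ h0

/-- Nonvanishing. -/
theorem lpU_nv (n : ℕ) (hn : Algebra.trdeg k L = n)
    (F : Fin n → IntermediateField k L) (hF : ∀ i, IsFF k (F i))
    (halg : Algebra.IsAlgebraic ↥(⨆ i, F i) L)
    (G : Subgroup (L ≃ₐ[k] L)) [Finite G] (hst : ∀ i, ∀ g ∈ G, ∀ z ∈ F i, g z ∈ F i)
    (B : ∀ i, Set (Place k ↥(F i ⊓ fixedField G))) (hB : ∀ i, (B i).Finite)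
    (h : LogNonnegCond G F B) (δ : Place k (fixedField G) → ℝ) (hδ : ∀ v, 0 ≤ δ v)
    (P : Set (Fin n)) (hP : ∀ i ∈ P, ¬ IsNegative (inf_le_left : F i ⊓ fixedField G ≤ F i) (B i))
    (hδP : BoundedByR (⨆ i : P, F i) n δ) :
    ((∀ i, ¬ IsNegative (inf_le_left : F i ⊓ fixedField G ≤ F i) (B i)) →
      LPEff k (fixedField G) n (QBd F G B) δ) ∧
    ((⨆ i, F i = ⊤) →
      (LPPsef k (fixedField G) n (QBd F G B) δ ↔ LPEff k (fixedField G) n (QBd F G B) δ) ∧
      (LPEff k (fixedField G) n (QBd F G B) δ ↔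
        ∀ i, ¬ IsNegative (inf_le_left : F i ⊓ fixedField G ≤ F i) (B i))) := by
  have h2 : (∀ i, ¬ IsNegative (inf_le_left : F i ⊓ fixedField G ≤ F i) (B i)) →
      LPEff k (fixedField G) n (QBd F G B) δ := fun h3 =>
    lpeff_of hδ ((nvL n hn F hF halg G hst B hB h).1 h3)
  refine ⟨h2, fun hsup => ?_⟩
  have h1 : LPPsef k (fixedField G) n (QBd F G B) δ →
      ∀ i, ¬ IsNegative (inf_le_left : F i ⊓ fixedField G ≤ F i) (B i) := by
    intro hp i hi
    exact lpU_neg n hn F hsup G hst B hB δ P hP hδP ⟨i, hi⟩ hp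
  have h3 : LPEff k (fixedField G) n (QBd F G B) δ →
      LPPsef k (fixedField G) n (QBd F G B) δ := lppsef_of_eff
  exact ⟨⟨fun h => h2 (h1 h), h3⟩, ⟨fun h => h1 (h3 h), h2⟩⟩

end

end Pool.Agent.TH194.LP
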