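import Pool.Agent.TH194.LP.PairU

/-! Exactness without boundary divisor. -/

set_option autoImplicit false
set_option linter.overlappingInstances false
set_option linter.unusedSectionVars false

universe u v

open FF IntermediateField Pool.Agent.W619.PQ Pool.Agent.W619.PL Pool.Agent.W619.TW
  Pool.Agent.W619.X Pool.Agent.W619.Y Pool.Agent.W603.LV

namespace Pool.Agent.TH194.LP

section

variable {k : Type v} {K : Type u} [Field k] [Field K] [Algebra k K] {n : ℕ}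
  {Bd : Place k K → Prop}

theorem lpnum_zero {h : ℕ} (hk : NumLe k K n Bd h) : LPNumLe k K n Bd 0 h := by
  intro S
  obtain ⟨C, hC⟩ := hk S
  refine ⟨C, fun m N hm hI => hC m N hm ?_⟩
  obtain ⟨ω, h1, h2⟩ := hI
  have key : ∀ (v : Place k K) (f : K), (f = 0 ∨ ∃ s ∈ S, s ≠ 0 ∧
      ((1 : ℕ) : ℝ) * v.ord s - m * (0 : Place k K → ℝ) v ≤ v.ord f) → Dom v S 1 f := by
    rintro v f (h3 | ⟨s, hs, hs0, h3⟩)
    · exact Or.inl h3
    · right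
      refine ⟨s, hs, hs0, ?_⟩
      simp only [Pi.zero_apply, mul_zero, sub_zero] at h3
      exact_mod_cast h3
  exact ⟨ω, h1, fun l => ⟨(h2 l).1, fun v hv hb D hD => key v _ ((h2 l).2.1 v hv hb D hD),
    fun v hv hb D hD => key v _ ((h2 l).2.2 v hv hb D hD)⟩⟩

/-- If `κ ≥ a` and `ν ≤ a` then `κ = ν = a`. -/
theorem exact_zero {a : ℕ} (h1 : KodGe k K n Bd a) (h2 : NumLe k K n Bd a) :
    (∀ h, KodGe k K n Bd h ↔ h ≤ a) ∧ ∀ h, NumLe k K n Bd h ↔ a ≤ h := by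
  have h0 : ∀ v : Place k K, (0 : ℝ) ≤ (0 : Place k K → ℝ) v := fun v => le_rfl
  refine ⟨fun h => ⟨fun h3 => kod_num (lpkod_of h0 h3) (lpnum_zero h2), fun h3 => ?_⟩,
    fun h => ⟨fun h3 => kod_num (lpkod_of h0 h1) (lpnum_zero h3), fun h3 => ?_⟩⟩
  · obtain ⟨m, hm, hk⟩ := h1
    exact ⟨m, hm, fun j hj => indep_le (Nat.pow_le_pow_right hj h3) (hk j hj)⟩
  · intro S
    obtain ⟨C, hC⟩ := h2 S
    exact ⟨C, fun m N hm hI => (hC m N hm hI).trans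
      (Nat.mul_le_mul_left _ (Nat.pow_le_pow_right hm h3))⟩

theorem eff_of_kod {a : ℕ} (h1 : KodGe k K n Bd a) : IsEff k K n Bd := by
  obtain ⟨m, hm, hk⟩ := h1
  obtain ⟨ω, h2, h3⟩ := hk 1 le_rfl
  have h4 : 0 < 1 ^ a := by simp
  have h5 : ω ⟨0, h4⟩ ≠ 0 := h2.ne_zero _
  refine ⟨m, hm, ω ⟨0, h4⟩, ?_, ?_⟩
  · have := h3 ⟨0, h4⟩
    rwa [one_mul] at this
  · by_contra hcon
    push Not at hcon
    exact h5 (funext hcon)

end

section

variable {k : Type v} {L : Type u} [Field k] [CharZero k] [IsAlgClosed k] [Field L] [Algebra k L]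

/-- Dichotomy. -/
theorem dich (n : ℕ) (hn : Algebra.trdeg k L = n)
    (F : Fin n → IntermediateField k L) (hF : ∀ i, IsFF k (F i)) (hsup : ⨆ i, F i = ⊤)
    (G : Subgroup (L ≃ₐ[k] L)) [Finite G] (hst : ∀ i, ∀ g ∈ G, ∀ z ∈ F i, g z ∈ F i)
    (h : PosCond G F) :
    ((∃ i, ∃ t : F i, k⟮t⟯ = ⊤) ∧ IsUniruled k (fixedField G) n ∧
      ¬ IsPsef k (fixedField G) n (fun _ => False)) ∨
    ((∀ i, ¬ ∃ t : F i, k⟮t⟯ = ⊤) ∧ IsPsef k (fixedField G) n (fun _ => False) ∧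
      (∀ κ, KodGe k (fixedField G) n (fun _ => False) κ ↔
        κ ≤ {i | ¬ IsElliptic (F i)}.ncard) ∧
      ∀ ν, NumLe k (fixedField G) n (fun _ => False) ν ↔
        {i | ¬ IsElliptic (F i)}.ncard ≤ ν) := by
  obtain ⟨h1, h2⟩ := knC n hn F hF (Pool.Agent.W619.X.alg_of_sup F hsup) G hst h
  by_cases hr : ∃ i, ∃ t : F i, k⟮t⟯ = ⊤
  · obtain ⟨-, h3, h4⟩ := h2 hsup hr
    exact Or.inl ⟨hr, h4, h3⟩
  · have hr' : ∀ i, ¬ ∃ t : F i, k⟮t⟯ = ⊤ := fun i hi => hr ⟨i, hi⟩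
    obtain ⟨h3, h4⟩ := h1 hr'
    have h5 := exact_zero h3 (h4 hsup)
    exact Or.inr ⟨hr', psef_of_eff (eff_of_kod h3), h5.1, h5.2⟩

end

end Pool.Agent.TH194.LP
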